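import Pool.Agent.Lib.MP_56f651_co.RT.St

open Finset

namespace Pool.Agent.Lib.MP_56f651_co.RT

namespace Conv

lemma ee_add {n : ℕ} [NeZero n] (a b : ZMod n) : ee (a + b) = ee a * ee b :=
  AddChar.map_add_eq_mul _ _ _

lemma orth {n : ℕ} [NeZero n] (m : ZMod n) : ∑ y, ee (y * m) = if m = 0 then (n : ℂ) else 0 := by
  rw [AddChar.sum_mulShift m (ZMod.isPrimitive_stdAddChar n), ZMod.card]
  split_ifs <;> simp

lemma inv {n : ℕ} [NeZero n] (f : ZMod n → ℂ) (j : ZMod n) :
    ∑ y, (∑ k, f k * ee (-(y * k))) * ee (y * j) = n * f j := by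
  simp only [sum_mul, mul_assoc, ← ee_add]
  rw [sum_comm]
  have e : ∀ k y : ZMod n, -(y * k) + y * j = y * (j - k) := fun k y => by ring
  simp only [← mul_sum, e, orth, sub_eq_zero, mul_ite, mul_zero, sum_ite_eq, mem_univ, if_true]
  ring

lemma csq {n : ℕ} [NeZero n] (a : ZMod n → ℂ) (y : ZMod n) :
    ∑ j, (∑ k, a k * a (j - k)) * ee (-(y * j)) = (∑ k, a k * ee (-(y * k))) ^ 2 := by
  simp only [sum_mul]
  rw [sum_comm, pow_two, sum_mul_sum]
  refine sum_congr rfl fun k _ => ?_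
  rw [← Equiv.sum_comp (Equiv.addRight k)]
  refine sum_congr rfl fun j _ => ?_
  rw [Equiv.coe_addRight, add_sub_cancel_right, show -(y * (j + k)) = -(y * k) + -(y * j) by ring,
    ee_add]
  ring

lemma ft_ne {l : ℕ} [Fact l.Prime] {A : ZMod l → ℤ} {k : ZMod l} (hk : k ≠ 0) (h : ft A k = 0)
    (y : ZMod l) : A y = A 0 := by
  have hl : l.Prime := Fact.out
  have e : ∀ n : ℕ, ee (-k) ^ n = ee (-(k * (n : ZMod l))) := fun n => by
    rw [← AddChar.map_nsmul_eq_pow, nsmul_eq_mul]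
    congr 1
    ring
  have hz : IsPrimitiveRoot (ee (-k)) l := by
    refine ⟨by simp [e], fun n hn => ?_⟩
    rw [e, ← (ZMod.stdAddChar (N := l)).map_zero_eq_one, ZMod.injective_stdAddChar.eq_iff,
      neg_eq_zero, mul_eq_zero, ZMod.natCast_eq_zero_iff] at hn
    exact hn.resolve_left hk
  have h2 := (hz.sum_eq_zero_iff_forall_eq_int hl fun i => A (i.val : ℕ)).1 (by
    rw [← h, ft]
    refine sum_bij (fun i _ => ((i.val : ℕ) : ZMod l)) (fun _ _ => mem_univ _)
      (fun i _ j _ hij => Fin.ext ?_) (fun y _ => ⟨⟨y.val, y.val_lt⟩, mem_univ _, by simp⟩)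
      fun i _ => by rw [e]
    simpa [ZMod.val_natCast, Nat.mod_eq_of_lt i.2, Nat.mod_eq_of_lt j.2] using congrArg ZMod.val hij)
  simpa using h2 ⟨y.val, y.val_lt⟩ ⟨0, hl.pos⟩

lemma norm {p : ℕ} [Fact p.Prime] {s : ZMod p → ℤ} (h : Had s) {t : ZMod p} (ht : t ≠ 0) :
    (∑ x, (s x : ℂ) * ee (-t * x)) * (∑ x, (s x : ℂ) * ee (t * x)) = p + 1 := by
  rw [sum_mul_sum]
  have e1 : ∀ x : ZMod p, ∑ y, (s x : ℂ) * ee (-t * x) * (s y * ee (t * y)) =
      ∑ d, ((s x * s (x + d) : ℤ) : ℂ) * ee (d * t) := fun x => by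
    rw [← Equiv.sum_comp (Equiv.addLeft x)]
    refine sum_congr rfl fun d _ => ?_
    rw [Equiv.coe_addLeft, show d * t = -t * x + t * (x + d) by ring, ee_add]
    push_cast
    ring
  have e2 : ∀ d : ZMod p, ∑ x, s x * s (x + d) = (if d = 0 then (p : ℤ) + 1 else 0) - 1 := fun d => by
    split_ifs with hd
    · simp [hd, h.mul_self]
    · rw [h.cor d hd, zero_sub]
  simp only [e1]
  rw [sum_comm]
  simp only [← sum_mul, ← Int.cast_sum, e2]
  push_cast
  simp only [sub_mul, sum_sub_distrib, one_mul, orth, if_neg ht, ite_mul, zero_mul, sum_ite_eq',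
    mem_univ, if_true]
  simp

lemma scale {p : ℕ} [Fact p.Prime] {R : Type} [AddCommMonoid R] {t : ZMod p} (ht : t ≠ 0)
    (F : ZMod p → R) : ∑ x ∈ univ.erase 0, F (t * x) = ∑ x ∈ univ.erase 0, F x :=
  sum_bij (fun x _ => t * x) (fun x hx => by simpa [ht] using hx)
    (fun _ _ _ _ h => mul_left_cancel₀ ht h)
    (fun x hx => ⟨t⁻¹ * x, by simpa [ht] using hx, mul_inv_cancel_left₀ ht x⟩) fun _ _ => rfl

end Conv

open Conv

theorem stConv : StConv := by
  intro l p _ _ ι g s l2 p4 hp hd hι hs hm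
  have hl : l.Prime := Fact.out
  have lo : l % 2 = 1 := hl.eq_two_or_odd.resolve_left l2
  have i1 : ι 1 = 0 := by simpa using hι.mul 1 1 one_ne_zero one_ne_zero
  have m1 : (-1 : ZMod p) ≠ 0 := neg_ne_zero.2 one_ne_zero
  have i2 : ι (-1) = 0 := by
    have h := hι.mul _ _ m1 m1
    rw [neg_mul_neg, one_mul, i1, ← two_mul, eq_comm, mul_eq_zero] at h
    refine h.resolve_left fun h => l2 ?_
    exact (Nat.prime_dvd_prime_iff_eq hl Nat.prime_two).1
      ((ZMod.natCast_eq_zero_iff 2 l).1 (by exact_mod_cast h))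
  have ineg : ∀ x, x ≠ 0 → ι (-x) = ι x := fun x hx => by
    rw [← neg_one_mul, hι.mul _ _ m1 hx, i2, zero_add]
  have ipow : ∀ n : ℕ, ι (g ^ n) = n := fun n => by
    induction n with
    | zero => simpa using i1
    | succ n ih => rw [pow_succ, hι.mul _ _ (pow_ne_zero _ hι.ne) hι.ne, ih, hι.one, Nat.cast_succ]
  obtain ⟨u, hu⟩ : ∃ u : ZMod l → ZMod p, ∀ y, u y = g ^ y.val := ⟨_, fun _ => rfl⟩
  have u0 : ∀ y, u y ≠ 0 := fun y => hu y ▸ pow_ne_zero _ hι.ne
  have ui : ∀ y, ι (u y) = y := fun y => by rw [hu, ipow, ZMod.natCast_zmod_val]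
  have us : ∀ y, IsSquare (u y) := fun y => hu y ▸ hι.sq.pow _
  obtain ⟨ρ, hρ⟩ : ∃ ρ : MulChar (ZMod p) ℤ, ρ = quadraticChar (ZMod p) := ⟨_, rfl⟩
  have r1 : ∀ x, x ≠ 0 → (ρ x = 1 ↔ IsSquare x) := fun x hx =>
    hρ ▸ quadraticChar_one_iff_isSquare hx
  have r2 : ∀ x, x ≠ 0 → ρ x = 1 ∨ ρ x = -1 := fun x hx => hρ ▸ quadraticChar_dichotomy hx
  have r3 : ρ (-1) = -1 := (r2 _ m1).resolve_left fun h =>
    ZMod.exists_sq_eq_neg_one_iff.1 ((r1 _ m1).1 h) p4
  have rneg : ∀ x, ρ (-x) = -ρ x := fun x => by rw [← neg_one_mul, map_mul, r3, neg_one_mul]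
  have cls : ∀ x, x ≠ 0 → ρ x = 1 → ∃ a : ZMod p, a ≠ 0 ∧ x = a ^ (2 * l) * u (ι x) :=
    fun x hx h => by
      have z0 : x / u (ι x) ≠ 0 := div_ne_zero hx (u0 _)
      have e := div_mul_cancel₀ x (u0 (ι x))
      obtain ⟨a, a0, ha⟩ := hι.ker _ z0 (by
        have := hι.mul _ _ z0 (u0 (ι x))
        rw [e, ui] at this
        simpa using this) (((r1 x hx).1 h).div (us _))
      exact ⟨a, a0, by rw [← ha, e]⟩
  obtain ⟨A, hA⟩ : ∃ A : ZMod l → ℤ, ∀ y, A y = s (u y) + s (-u y) := ⟨_, fun _ => rfl⟩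
  obtain ⟨B, hB⟩ : ∃ B : ZMod l → ℤ, ∀ y, B y = s (u y) - s (-u y) := ⟨_, fun _ => rfl⟩
  have key : ∀ x, x ≠ 0 → 2 * s x = A (ι x) + ρ x * B (ι x) := fun x hx => by
    rw [hA, hB]
    rcases r2 x hx with h | h
    · obtain ⟨a, a0, ha⟩ := cls x hx h
      have := hm a a0 (u (ι x))
      rw [← ha] at this
      rw [h, this]
      ring
    · obtain ⟨a, a0, ha⟩ := cls (-x) (neg_ne_zero.2 hx) (by rw [rneg, h, neg_neg])
      rw [ineg x hx] at ha
      have := hm a a0 (-u (ι x))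
      rw [mul_neg, ← ha, neg_neg] at this
      rw [h, this]
      ring
  have sm : ∑ x ∈ univ.erase 0, s x = 1 - s 0 := by
    rw [← hs.sum, ← add_sum_erase _ _ (mem_univ 0), add_sub_cancel_left]
  have s1 : ∑ x ∈ univ.erase (0 : ZMod p), A (ι x) = 2 * (1 - s 0) := by
    have e := scale m1 s
    have : ∑ x ∈ univ.erase (0 : ZMod p), A (ι x) = ∑ x ∈ univ.erase 0, (s (-1 * x) + s x) :=
      sum_congr rfl fun x hx => by
        have x0 := (mem_erase.1 hx).1
        have a := key x x0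
        have b := key _ (neg_ne_zero.2 x0)
        rw [ineg x x0, rneg] at b
        rw [neg_one_mul]
        linarith
    rw [this, sum_add_distrib, e, sm]
    ring
  have s2 : (l : ℤ) * (2 * (1 - s 0)) = (p - 1 : ℕ) * ∑ y, A y := by
    have e : ∀ y, ∑ x ∈ univ.erase (0 : ZMod p), A (y + ι x) = 2 * (1 - s 0) := fun y => by
      rw [← s1, ← scale (u0 y) fun x => A (ι x)]
      exact sum_congr rfl fun x hx => by rw [hι.mul _ _ (u0 y) (mem_erase.1 hx).1, ui]
    have e' : ∀ x, ∑ y, A (y + ι x) = ∑ y, A y := fun x => Equiv.sum_comp (Equiv.addRight _) A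
    have := sum_congr rfl fun y (_ : y ∈ univ) => e y
    rw [sum_comm] at this
    simp only [e', sum_const, card_erase_of_mem (mem_univ _), card_univ, ZMod.card,
      nsmul_eq_mul] at this
    exact this.symm
  have ev : ∀ y, A y = 2 ∧ B y = 0 ∨ A y = -2 ∧ B y = 0 ∨ A y = 0 ∧ B y = 2 ∨ A y = 0 ∧ B y = -2 :=
    fun y => by
      rw [hA, hB]
      rcases hs.sq (u y) with a | a <;> rcases hs.sq (-u y) with b | b <;> simp [a, b]
  have l0 : (0 : ℤ) < l := by exact_mod_cast hl.pos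
  obtain ⟨m, hm'⟩ := hd
  have m2 : (2 : ℤ) ≤ m := by
    have : 1 < m := lt_of_mul_lt_mul_left (a := 2 * l) (by omega) (Nat.zero_le _)
    exact_mod_cast this
  have s3 : 1 - s 0 = m * ∑ y, A y := by
    rw [hm'] at s2
    push_cast at s2
    exact mul_left_cancel₀ (a := 2 * (l : ℤ)) (by positivity) (by linarith)
  have s0 : s 0 = 1 := (hs.sq 0).resolve_right fun h => by
    obtain ⟨c, hc⟩ : (2 : ℤ) ∣ ∑ y, A y := dvd_sum fun y _ => by have := ev y; omega
    rw [h, hc] at s3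
    have : m * c = 1 := by linarith
    rcases le_or_gt c 0 with h | h <;> nlinarith
  have sA : ∑ y, A y = 0 := by
    rw [s0, sub_self, eq_comm, mul_eq_zero] at s3
    exact s3.resolve_left (by omega)
  by_cases hc : ∀ y, A y = 0
  · refine Or.inl ⟨s0, fun x hx => ?_⟩
    have a := key x hx
    have b := key _ (neg_ne_zero.2 hx)
    rw [ineg x hx, rneg, hc] at b
    rw [hc] at a
    linarith
  refine Or.inr ⟨A, B, fun y => ?_, fun k hk => ⟨fun h => hc fun y => ?_, fun h => ?_⟩, fun j => ?_⟩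
  · rcases ev y with h | h | h | h <;> simp [h.1, h.2]
  · have e := ft_ne hk h
    simp only [e, sum_const, card_univ, ZMod.card, nsmul_eq_mul, mul_eq_zero] at sA
    rw [e, sA.resolve_left l0.ne']
  · have e := ft_ne hk h
    by_cases b0 : B 0 = 0
    · have h4 : (4 : ℤ) ∣ ∑ y, (A y - 2) := dvd_sum fun y _ => by
        have := ev y
        have := e y
        omega
      rw [sum_sub_distrib, sA] at h4
      simp only [sum_const, card_univ, ZMod.card, nsmul_eq_mul] at h4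
      omega
    · exact hc fun y => by
        have := ev y
        have := e y
        omega
  have fA : ∀ (C : ZMod l → ℤ) y, (l : ℂ) * C y = ∑ k, ft C k * ee (k * y) := fun C y =>
    (Conv.inv (fun y => (C y : ℂ)) y).symm
  have ex : ∀ t : ZMod p, t ≠ 0 → 2 * l * ∑ x, (s x : ℂ) * ee (t * x) =
      ∑ k, al A k * GG ι k * ee (-(ι t * k)) +
        ρ t * ∑ k, ft B k * HH ι k * ee (-(ι t * k)) := fun t ht => by
    have t' := inv_ne_zero ht
    have it : ι t⁻¹ = -ι t := by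
      have := hι.mul _ _ ht t'
      rw [mul_inv_cancel₀ ht, i1] at this
      exact eq_neg_of_add_eq_zero_right this.symm
    have rt : ρ t⁻¹ = ρ t := by
      have := map_mul ρ t t⁻¹
      rw [mul_inv_cancel₀ ht, map_one] at this
      rcases r2 t ht with h | h <;> rw [h] at this ⊢ <;> linarith
    have e1 : ∑ k, al A k * GG ι k * ee (-(ι t * k)) = 2 * l + ∑ k, ft A k *
        (∑ x ∈ univ.erase (0 : ZMod p), ee (k * ι x) * ee x) * ee (-(ι t * k)) := by
      rw [← add_sum_erase _ _ (mem_univ 0), ← add_sum_erase _ _ (mem_univ (0 : ZMod l))]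
      have f0 : ft A 0 = 0 := by
        have : ((∑ y, A y : ℤ) : ℂ) = 0 := by rw [sA, Int.cast_zero]
        simpa [ft] using this
      rw [f0, zero_mul, zero_mul, zero_add]
      congr 1
      · simp [al, GG]
      · exact sum_congr rfl fun k hk => by rw [al, GG, if_neg (mem_erase.1 hk).1,
          if_neg (mem_erase.1 hk).1]
    have e2 : ∀ k, HH ι k = ∑ x ∈ univ.erase (0 : ZMod p), (ρ x : ℂ) * ee (k * ι x) * ee x :=
      fun k => by
        rw [HH, ← add_sum_erase _ _ (mem_univ 0), hρ]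
        simp
    rw [e1, ← add_sum_erase _ _ (mem_univ (0 : ZMod p)), s0,
      ← scale t' fun x => (s x : ℂ) * ee (t * x)]
    simp only [e2, mul_sum, sum_mul, mul_add]
    rw [add_assoc, sum_comm (s := univ), sum_comm (s := univ), ← sum_add_distrib]
    congr 1
    · simp
    refine sum_congr rfl fun x hx => ?_
    have x0 := (mem_erase.1 hx).1
    have k1 : (2 : ℂ) * s (t⁻¹ * x) = A (ι (t⁻¹ * x)) + ρ (t⁻¹ * x) * B (ι (t⁻¹ * x)) := by
      exact_mod_cast key _ (mul_ne_zero t' x0)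
    rw [hι.mul _ _ t' x0, it, map_mul, rt] at k1
    have e3 : ∀ k, ee (k * (-ι t + ι x)) = ee (k * ι x) * ee (-(ι t * k)) := fun k => by
      rw [← ee_add]
      congr 1
      ring
    have a := fA A (-ι t + ι x)
    have b := fA B (-ι t + ι x)
    simp only [e3] at a b
    have a' : ∑ k, ft A k * (ee (k * ι x) * ee x) * ee (-(ι t * k)) = l * A (-ι t + ι x) * ee x := by
      rw [a, sum_mul]
      exact sum_congr rfl fun k _ => by ring
    have b' : ∑ k, (ρ t : ℂ) * (ft B k * (ρ x * ee (k * ι x) * ee x) * ee (-(ι t * k))) =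
        ρ t * ρ x * (l * B (-ι t + ι x)) * ee x := by
      rw [b, mul_sum, sum_mul]
      exact sum_congr rfl fun k _ => by ring
    rw [a', b', mul_inv_cancel_left₀ ht]
    push_cast at k1
    linear_combination (l * ee x) * k1
  have hat : ∀ y, ∑ j, (∑ k, al A k * GG ι k * (al A (j - k) * GG ι (j - k)) -
      ∑ k, ft B k * HH ι k * (ft B (j - k) * HH ι (j - k))) * ee (-(y * j)) =
      (2 * l) ^ 2 * ((p : ℂ) + 1) := fun y => by
    have a := ex _ (u0 y)
    have b := ex _ (neg_ne_zero.2 (u0 y))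
    rw [ineg _ (u0 y), rneg] at b
    rw [ui, (r1 _ (u0 y)).2 (us y)] at a b
    simp only [sub_mul, sum_sub_distrib]
    rw [csq fun k => al A k * GG ι k, csq fun k => ft B k * HH ι k, ← Conv.norm hs (u0 y)]
    push_cast at a b
    linear_combination (-(2 * l * ∑ x, (s x : ℂ) * ee (-u y * x))) * a -
      (∑ k, al A k * GG ι k * ee (-(y * k)) + ∑ k, ft B k * HH ι k * ee (-(y * k))) * b
  have fin := Conv.inv (fun j => ∑ k, al A k * GG ι k * (al A (j - k) * GG ι (j - k)) -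
      ∑ k, ft B k * HH ι k * (ft B (j - k) * HH ι (j - k))) j
  simp only [hat, ← mul_sum, orth] at fin
  refine mul_left_cancel₀ (a := (l : ℂ)) (by exact_mod_cast hl.ne_zero) (fin.symm.trans ?_)
  split_ifs <;> simp [al, mul_comm]

end Pool.Agent.Lib.MP_56f651_co.RT
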