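import Pool.Agent.Lib.MP_56f651_co.RT.St

open Finset

namespace Pool.Agent.Lib.MP_56f651_co.RT

theorem stChar : StChar := by
  intro l p hl hp h2 hdvd
  classical
  obtain ⟨h, hh⟩ := IsCyclic.exists_generator (α := (ZMod p)ˣ)
  have hord : orderOf h = p - 1 := by
    rw [orderOf_eq_card_of_forall_mem_zpowers hh, Nat.card_eq_fintype_card, ZMod.card_units]
  have hex : ∀ x : ZMod p, x ≠ 0 → ∃ n : ℕ, (h : ZMod p) ^ n = x := by
    intro x hx
    obtain ⟨n, hn⟩ := (mem_powers_iff_mem_zpowers.mpr (hh (Units.mk0 x hx)))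
    refine ⟨n, ?_⟩
    have := congrArg (fun u : (ZMod p)ˣ => (u : ZMod p)) hn
    simpa using this
  have hmod : ∀ n m : ℕ, (h : ZMod p) ^ n = (h : ZMod p) ^ m → n ≡ m [MOD 2 * l] := by
    intro n m hnm
    have : h ^ n = h ^ m := Units.ext (by simpa using hnm)
    rw [pow_eq_pow_iff_modEq, hord] at this
    exact this.of_dvd hdvd
  let ι : ZMod p → ZMod l := fun x =>
    if hx : ∃ n : ℕ, (h : ZMod p) ^ n = x then ((Classical.choose hx : ℕ) : ZMod l) else 0
  have hι : ∀ n : ℕ, ι ((h : ZMod p) ^ n) = n := by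
    intro n
    have hx : ∃ m : ℕ, (h : ZMod p) ^ m = (h : ZMod p) ^ n := ⟨n, rfl⟩
    simp only [ι, dif_pos hx]
    rw [ZMod.natCast_eq_natCast_iff]
    exact (hmod _ _ (Classical.choose_spec hx)).of_dvd (Dvd.intro_left 2 rfl)
  have hodd : Odd l := hl.out.odd_of_ne_two h2
  refine ⟨ι, (h : ZMod p) ^ (l + 1), pow_ne_zero _ h.ne_zero, ?_, ?_, ?_, ?_⟩
  · obtain ⟨k, hk⟩ := hodd
    exact ⟨(h : ZMod p) ^ (k + 1), by rw [← pow_add, hk]; congr 1; ring⟩
  · rw [hι]
    simp
  · intro x y hx hy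
    obtain ⟨n, rfl⟩ := hex x hx
    obtain ⟨m, rfl⟩ := hex y hy
    rw [← pow_add, hι, hι, hι, Nat.cast_add]
  · intro x hx h0 hsq
    obtain ⟨n, rfl⟩ := hex x hx
    rw [hι, ZMod.natCast_eq_zero_iff] at h0
    obtain ⟨y, hy⟩ := hsq
    have hy0 : y ≠ 0 := fun e => hx (by rw [hy, e, mul_zero])
    obtain ⟨m, rfl⟩ := hex y hy0
    rw [← pow_add] at hy
    have e2 : n ≡ m + m [MOD 2] := (hmod _ _ hy).of_dvd (Dvd.intro l rfl)
    have d2 : 2 ∣ n := by
      unfold Nat.ModEq at e2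
      omega
    have hc : Nat.Coprime 2 l := (Nat.coprime_primes Nat.prime_two hl.out).mpr (Ne.symm h2)
    obtain ⟨k, hk⟩ := hc.mul_dvd_of_dvd_of_dvd d2 h0
    exact ⟨(h : ZMod p) ^ k, pow_ne_zero _ h.ne_zero, by rw [← pow_mul, hk, mul_comm]⟩

theorem count_roots (P : Polynomial ℂ) :
    ∃ F : Finset ℕ, F.card ≤ P.natDegree ∧ ∀ n : ℕ, P ≠ 0 → P.eval (n : ℂ) = 0 → n ∈ F := by
  classical
  refine ⟨P.roots.toFinset.preimage (fun n : ℕ => (n : ℂ)) Nat.cast_injective.injOn, ?_, ?_⟩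
  · refine le_trans ?_ ((Multiset.toFinset_card_le _).trans (Polynomial.card_roots' P))
    refine card_le_card_of_injOn (fun n : ℕ => (n : ℂ)) (fun n hn => ?_) Nat.cast_injective.injOn
    exact mem_coe.mpr (mem_preimage.mp (mem_coe.mp hn))
  · intro n hP hn
    rw [mem_preimage, Multiset.mem_toFinset, Polynomial.mem_roots hP]
    exact hn

theorem stCount : StCount := by
  intro ι _ S T c Φ hpos hT hΦ hR
  classical
  choose R hR0 hR using hR
  choose F hF1 hF2 using count_roots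
  let E : ι → Set ℤ := fun i => {t | (R i).leadingCoeff.eval ((t : ℂ)⁻¹) = 0}
  have hE : ∀ i, (E i).Finite := by
    intro i
    have h1 : {z : ℂ | (R i).leadingCoeff.IsRoot z}.Finite :=
      Polynomial.finite_setOfPred_isRoot (Polynomial.leadingCoeff_ne_zero.mpr (hR0 i))
    exact h1.preimage (f := fun t : ℤ => ((t : ℂ)⁻¹))
      (inv_injective.comp Int.cast_injective).injOn
  have hA : (Φ '' {f | ∀ i, f i ∈ E i}).Finite := (Set.Finite.pi' hE).image Φ
  let D : ℕ := ∑ i, (R i).natDegree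
  refine ⟨hA.toFinset.card + (2 * Real.sqrt c + 1) * D, fun x => ?_⟩
  rcases Nat.eq_zero_or_pos x with rfl | hx
  · have : S ∩ Set.Iic 0 = ∅ := by
      ext q
      simp only [Set.mem_inter_iff, Set.mem_Iic, Set.mem_empty_iff_false, iff_false, not_and]
      intro hq
      have := hpos q hq
      omega
    rw [this]
    simp
  let M : ℕ := Nat.sqrt (c * x)
  let B : Finset ℕ := hA.toFinset ∪ univ.biUnion fun i => (Icc (-(M : ℤ)) M).biUnion fun t =>
    F ((R i).map (Polynomial.evalRingHom ((t : ℂ)⁻¹)))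
  have hsub : S ∩ Set.Iic x ⊆ (B : Set ℕ) := by
    rintro q ⟨hq, hqx⟩
    rw [mem_coe, mem_union]
    by_cases hall : ∀ i, T i q ∈ E i
    · exact Or.inl (hA.mem_toFinset.mpr ⟨fun i => T i q, hall, (hΦ q hq).symm⟩)
    · right
      obtain ⟨i, hi⟩ := not_forall.mp hall
      refine mem_biUnion.mpr ⟨i, mem_univ _, mem_biUnion.mpr ⟨T i q, ?_, hF2 _ q ?_ (hR i q hq)⟩⟩
      · have h1 : (T i q).natAbs ≤ M := by
          refine Nat.le_sqrt'.mpr ?_
          have h2 : T i q ^ 2 ≤ c * x :=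
            (hT q hq i).trans (by exact_mod_cast Nat.mul_le_mul_left c (Set.mem_Iic.mp hqx))
          have h3 : (((T i q).natAbs ^ 2 : ℕ) : ℤ) = T i q ^ 2 := by
            push_cast
            exact sq_abs _
          rw [← h3] at h2
          exact_mod_cast h2
        rw [mem_Icc]
        omega
      · intro h0
        refine hi ?_
        have := congrArg (fun P => Polynomial.coeff P (R i).natDegree) h0
        simpa [E, Polynomial.coeff_map] using this
  have hcard : B.card ≤ hA.toFinset.card + (2 * M + 1) * D := by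
    refine (card_union_le _ _).trans (Nat.add_le_add_left ?_ _)
    refine card_biUnion_le.trans ?_
    rw [mul_sum]
    refine sum_le_sum fun i _ => card_biUnion_le.trans ?_
    refine (sum_le_card_nsmul _ _ (R i).natDegree fun t _ =>
      (hF1 _).trans Polynomial.natDegree_map_le).trans ?_
    rw [Int.card_Icc, smul_eq_mul]
    refine Nat.mul_le_mul_right _ ?_
    omega
  have h1 : ((S ∩ Set.Iic x).ncard : ℝ) ≤ hA.toFinset.card + (2 * M + 1) * D := by
    have := (Set.ncard_le_ncard hsub B.finite_toSet).trans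
      ((Set.ncard_coe_finset B).le.trans hcard)
    exact_mod_cast this
  have h2 : (M : ℝ) ≤ Real.sqrt c * Real.sqrt x := by
    rw [← Real.sqrt_mul (Nat.cast_nonneg c)]
    refine Real.le_sqrt_of_sq_le ?_
    exact_mod_cast Nat.sqrt_le' (c * x)
  have h3 : (1 : ℝ) ≤ Real.sqrt x := Real.one_le_sqrt.mpr (by exact_mod_cast hx)
  have h4 : (0 : ℝ) ≤ D := Nat.cast_nonneg _
  have h5 : (0 : ℝ) ≤ hA.toFinset.card := Nat.cast_nonneg _
  have h6 : (2 * (M : ℝ) + 1) * D ≤ ((2 * Real.sqrt c + 1) * Real.sqrt x) * D :=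
    mul_le_mul_of_nonneg_right (by linarith) h4
  have h7 : (hA.toFinset.card : ℝ) ≤ hA.toFinset.card * Real.sqrt x := le_mul_of_one_le_right h5 h3
  nlinarith

end Pool.Agent.Lib.MP_56f651_co.RT
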