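import Pool.Agent.Lib.MP_56f651_co.RT.St

open Finset

namespace Pool.Agent.Lib.MP_56f651_co.RT

section Moments

variable {l : ℕ} [Fact l.Prime] {k : Type} [Field k] (φ : ZMod l →+* k)

/-- moments of a function on the prime field -/
def mom (f : ZMod l → k) (j : ℕ) : k := ∑ x, f x * φ x ^ j

lemma van (f : ZMod l → k) (L : Finset (ZMod l)) (hL : ∀ x, x ∉ L → f x = 0)
    (h : ∀ j, j < L.card → mom φ f j = 0) : f = 0 := by
  funext x0
  by_contra h0
  have hx : x0 ∈ L := by
    by_contra e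
    exact h0 (hL _ e)
  let q : Polynomial k := ∏ x ∈ L.erase x0, (Polynomial.X - Polynomial.C (φ x))
  have hq : q.natDegree < L.card := by
    have : q.natDegree = (L.erase x0).card := Polynomial.natDegree_finsetProd_X_sub_C_eq_card _ _
    rw [this, card_erase_of_mem hx]
    have := card_pos.2 ⟨_, hx⟩
    omega
  have e1 : ∑ x, f x * q.eval (φ x) = 0 := by
    simp only [Polynomial.eval_eq_sum_range' hq, mul_sum]
    rw [sum_comm]
    refine sum_eq_zero fun j hj => ?_
    have := h j (mem_range.1 hj)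
    rw [mom] at this
    calc ∑ x, f x * (q.coeff j * φ x ^ j) = q.coeff j * ∑ x, f x * φ x ^ j := by
          rw [mul_sum]; exact sum_congr rfl fun x _ => by ring
      _ = 0 := by rw [this, mul_zero]
  rw [sum_eq_single x0] at e1
  · refine h0 ((mul_eq_zero.1 e1).resolve_right ?_)
    simp only [q, Polynomial.eval_prod, Polynomial.eval_sub, Polynomial.eval_X, Polynomial.eval_C]
    refine prod_ne_zero_iff.2 fun x hx' => sub_ne_zero.2 fun e => ?_
    exact (mem_erase.1 hx').1 (φ.injective e).symm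
  · intro x _ hx'
    by_cases e : x ∈ L
    · refine mul_eq_zero_of_right _ ?_
      simp only [q, Polynomial.eval_prod, Polynomial.eval_sub, Polynomial.eval_X, Polynomial.eval_C]
      exact prod_eq_zero (mem_erase.2 ⟨hx', e⟩) (sub_self _)
    · rw [hL x e, zero_mul]
  · simp

lemma exists_mom {f : ZMod l → k} (hf : f ≠ 0) (L : Finset (ZMod l))
    (hL : ∀ x, x ∉ L → f x = 0) : ∃ j, j < L.card ∧ mom φ f j ≠ 0 := by
  by_contra h
  push Not at h
  exact hf (van φ f L hL h)

lemma mom_conv (U W : ZMod l → k) (n : ℕ) :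
    mom φ (fun j => ∑ x, U x * W (j - x)) n =
      ∑ i ∈ range (n + 1), (n.choose i : k) * (mom φ U i * mom φ W (n - i)) := by
  simp only [mom, sum_mul, mul_sum]
  rw [sum_comm]
  conv_rhs => rw [sum_comm]
  have : ∀ x, ∑ j, U x * W (j - x) * φ j ^ n = ∑ y, U x * W y * (φ x + φ y) ^ n := fun x => by
    rw [← Equiv.sum_comp (Equiv.addLeft x)]
    refine sum_congr rfl fun y _ => ?_
    simp
  simp only [this]
  rw [sum_comm]
  refine sum_congr rfl fun y _ => ?_
  conv_rhs => rw [sum_comm]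
  refine sum_congr rfl fun x _ => ?_
  rw [add_pow, mul_sum]
  exact sum_congr rfl fun i _ => by ring

lemma key {U W : ZMod l → k} (h : ∀ j, ∑ x, U x * W (j - x) = 0) {a b : ℕ} (hab : a + b < l)
    (ha : mom φ U a ≠ 0) (hb : mom φ W b ≠ 0) : False := by
  classical
  have hU : ∃ a, mom φ U a ≠ 0 := ⟨a, ha⟩
  have hW : ∃ b, mom φ W b ≠ 0 := ⟨b, hb⟩
  have h1 := Nat.find_min' hU ha
  have h2 := Nat.find_min' hW hb
  have e := mom_conv φ U W (Nat.find hU + Nat.find hW)
  rw [show (fun j => ∑ x, U x * W (j - x)) = fun _ => 0 from funext h,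
    sum_eq_single (Nat.find hU)] at e
  · rw [Nat.add_sub_cancel_left] at e
    have e0 : mom φ (fun _ => (0 : k)) (Nat.find hU + Nat.find hW) = 0 := by simp [mom]
    rw [e0] at e
    rcases mul_eq_zero.1 e.symm with c | c
    · rw [← map_natCast φ, map_eq_zero, ZMod.natCast_eq_zero_iff] at c
      have h3 : l ∣ (Nat.find hU + Nat.find hW).factorial :=
        c.trans (Dvd.intro _ (by
          rw [← Nat.choose_mul_factorial_mul_factorial (Nat.le_add_right _ _), mul_assoc]))
      have := (Nat.Prime.dvd_factorial Fact.out).1 h3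
      omega
    · rcases mul_eq_zero.1 c with c | c
      · exact Nat.find_spec hU c
      · exact Nat.find_spec hW c
  · intro i hi hne
    rcases lt_or_gt_of_ne hne with c | c
    · rw [not_not.1 (Nat.find_min hU c), zero_mul, mul_zero]
    · have := mem_range.1 hi
      rw [not_not.1 (Nat.find_min hW (by omega : _ - i < _)), mul_zero, mul_zero]
  · intro c
    exact absurd (mem_range.2 (by omega)) c

lemma charl (P Q : ZMod l → k) (Le Lo : Finset (ZMod l)) (hl : l ≠ 2) (hd : Disjoint Le Lo)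
    (h1 : 2 * Le.card + Lo.card ≤ l + 1) (h2 : 2 * Lo.card ≤ l + 1) (hP : ∀ x, x ∉ Le → P x = 0)
    (hQ : ∀ x, x ∉ Lo → Q x = 0) (h : ∀ j, ∑ x, P x * P (j - x) = ∑ x, Q x * Q (j - x))
    (φ : ZMod l →+* k) : P = 0 ∧ Q = 0 := by
  classical
  have hc : ∀ j, ∑ x, (P x + Q x) * (P (j - x) - Q (j - x)) = 0 := fun j => by
    have e : ∑ x, P x * Q (j - x) = ∑ x, Q x * P (j - x) := by
      rw [← Equiv.sum_comp (Equiv.subLeft j)]
      exact sum_congr rfl fun x _ => by simp [mul_comm]
    have : ∀ x, (P x + Q x) * (P (j - x) - Q (j - x)) =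
        P x * P (j - x) - Q x * Q (j - x) - (P x * Q (j - x) - Q x * P (j - x)) := fun x => by ring
    simp only [this, sum_sub_distrib, h j, e, sub_self]
  have hc' : ∀ j, ∑ x, (P x - Q x) * (P (j - x) + Q (j - x)) = 0 := fun j => by
    rw [← hc j, ← Equiv.sum_comp (Equiv.subLeft j)]
    exact sum_congr rfl fun x _ => by simp [mul_comm]
  have h2k : (2 : k) ≠ 0 := fun e => by
    have : φ (2 : ℕ) = 0 := by rw [map_natCast]; exact_mod_cast e
    rw [map_eq_zero, ZMod.natCast_eq_zero_iff] at this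
    exact hl ((Nat.prime_dvd_prime_iff_eq Fact.out Nat.prime_two).1 this)
  have hP0 : P = 0 := by
    by_contra hp
    obtain ⟨r, hr, hm⟩ := exists_mom φ hp Le hP
    obtain ⟨x0, hx0⟩ := Function.ne_iff.1 hp
    have hx1 : x0 ∈ Le := by
      by_contra e
      exact hx0 (hP _ e)
    have hx2 : Q x0 = 0 := hQ _ (disjoint_left.1 hd hx1)
    have hcard := card_union_le Le Lo
    obtain ⟨a, ha, hma⟩ := exists_mom φ (f := fun x => P x + Q x)
      (Function.ne_iff.2 ⟨x0, by simpa [hx2] using hx0⟩) (Le ∪ Lo) fun x hx => by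
        rw [mem_union, not_or] at hx
        simp [hP x hx.1, hQ x hx.2]
    obtain ⟨b, hb, hmb⟩ := exists_mom φ (f := fun x => P x - Q x)
      (Function.ne_iff.2 ⟨x0, by simpa [hx2] using hx0⟩) (Le ∪ Lo) fun x hx => by
        rw [mem_union, not_or] at hx
        simp [hP x hx.1, hQ x hx.2]
    have e : mom φ (fun x => P x + Q x) r + mom φ (fun x => P x - Q x) r = 2 * mom φ P r := by
      simp only [mom, ← sum_add_distrib, mul_sum]
      exact sum_congr rfl fun x _ => by ring
    by_cases c : mom φ (fun x => P x + Q x) r = 0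
    · have c' : mom φ (fun x => P x - Q x) r ≠ 0 := fun c' => by
        rw [c, c', add_zero] at e
        exact mul_ne_zero h2k hm e.symm
      exact key φ (U := fun x => P x - Q x) (W := fun x => P x + Q x) hc' (by omega) c' hma
    · exact key φ (U := fun x => P x + Q x) (W := fun x => P x - Q x) hc (by omega) c hmb
  refine ⟨hP0, ?_⟩
  by_contra hq
  obtain ⟨r, hr, hm⟩ := exists_mom φ hq Lo hQ
  exact key φ (U := Q) (W := Q) (fun j => by rw [← h j]; simp [hP0]) (by omega) hm hm

end Moments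

lemma reduce {l : ℕ} [NeZero l] {F : Type} [Field F] (O : ValuationSubring F) (P Q : ZMod l → F)
    (c : F) (hP : ∀ k, O.valuation (P k) ≤ 1) (hQ : ∀ k, O.valuation (Q k) ≤ 1)
    (hc : O.valuation c < 1)
    (h : ∀ j, ∑ k, P k * P (j - k) - ∑ k, Q k * Q (j - k) = if j = 0 then c else 0) :
    ∃ P' Q' : ZMod l → IsLocalRing.ResidueField O, (∀ k, P' k = 0 ↔ O.valuation (P k) < 1) ∧
      (∀ k, Q' k = 0 ↔ O.valuation (Q k) < 1) ∧
      ∀ j, ∑ k, P' k * P' (j - k) = ∑ k, Q' k * Q' (j - k) := by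
  let P1 : ZMod l → O := fun k => ⟨P k, (O.valuation_le_one_iff _).1 (hP k)⟩
  let Q1 : ZMod l → O := fun k => ⟨Q k, (O.valuation_le_one_iff _).1 (hQ k)⟩
  have hz : ∀ x : O, IsLocalRing.residue O x = 0 ↔ O.valuation (x : F) < 1 := fun x => by
    rw [IsLocalRing.residue_eq_zero_iff, O.valuation_lt_one_iff]
  refine ⟨fun k => IsLocalRing.residue O (P1 k), fun k => IsLocalRing.residue O (Q1 k),
    fun k => hz _, fun k => hz _, fun j => ?_⟩
  simp only [← map_mul, ← map_sum]
  rw [← sub_eq_zero, ← map_sub, hz]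
  push_cast
  rw [h j]
  split_ifs
  · exact hc
  · simp

lemma exists_top {l : ℕ} [NeZero l] {F : Type} [Field F] (O : ValuationSubring F)
    (P Q : ZMod l → F) : ∃ m : F, (∀ k, O.valuation (P k) ≤ O.valuation m) ∧
      (∀ k, O.valuation (Q k) ≤ O.valuation m) ∧ ((∃ k, m = P k) ∨ ∃ k, m = Q k) := by
  obtain ⟨a, -, ha⟩ := exists_max_image univ (fun k => O.valuation (P k)) univ_nonempty
  obtain ⟨b, -, hb⟩ := exists_max_image univ (fun k => O.valuation (Q k)) univ_nonempty
  rcases le_total (O.valuation (P a)) (O.valuation (Q b)) with c | c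
  · exact ⟨Q b, fun k => (ha k (mem_univ _)).trans c, fun k => hb k (mem_univ _), Or.inr ⟨b, rfl⟩⟩
  · exact ⟨P a, fun k => ha k (mem_univ _), fun k => (hb k (mem_univ _)).trans c, Or.inl ⟨a, rfl⟩⟩

theorem stF : StF := by
  intro l _ K _ _ P Q Le Lo hl hd h1 h2 hP hQ h
  have hI : Ideal.span {((l : ℕ) : (⊥ : Subring K))} ≠ ⊤ := by
    intro e
    rw [Ideal.span_singleton_eq_top, isUnit_iff_exists_inv] at e
    obtain ⟨⟨b, hb⟩, e⟩ := e
    obtain ⟨n, rfl⟩ := Subring.mem_bot.1 hb
    have e' : ((l : ℤ) * n : ℤ) = 1 := by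
      have := congrArg (fun z : (⊥ : Subring K) => (z : K)) e
      simp only [Subring.coe_mul, Subring.coe_natCast, Subring.coe_one] at this
      exact_mod_cast this
    have := Int.isUnit_iff.1 (IsUnit.of_mul_eq_one _ e')
    have := (Fact.out : l.Prime).two_le
    omega
  obtain ⟨O, -, hO⟩ := Ideal.image_subset_nonunits_valuationSubring _ hI
  have hl1 : O.valuation (l : K) < 1 := by
    rw [← O.mem_nonunits_iff]
    exact hO ⟨_, Ideal.mem_span_singleton_self _, by simp⟩
  have hch : CharP (IsLocalRing.ResidueField O) l := by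
    refine (CharP.charP_iff_prime_eq_zero Fact.out).2 ?_
    rw [← map_natCast (IsLocalRing.residue O), IsLocalRing.residue_eq_zero_iff,
      O.valuation_lt_one_iff]
    simpa using hl1
  obtain ⟨m, m1, m2, m3⟩ := exists_top O P Q
  by_cases hm : m = 0
  · subst hm
    exact ⟨funext fun k => by simpa using m1 k, funext fun k => by simpa using m2 k⟩
  have hv : 0 < O.valuation m := zero_lt_iff.2 (by simpa using hm)
  obtain ⟨P', Q', a1, a2, a3⟩ := reduce O (fun k => P k / m) (fun k => Q k / m) 0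
    (fun k => by rw [map_div₀]; exact div_le_one_of_le₀ (m1 k) hv.le)
    (fun k => by rw [map_div₀]; exact div_le_one_of_le₀ (m2 k) hv.le) (by simp) fun j => by
      simp only [div_mul_div_comm, ← sum_div, h j, sub_self, ite_self]
  obtain ⟨b1, b2⟩ := charl P' Q' Le Lo hl hd h1 h2 (fun x hx => (a1 x).2 (by simp [hP x hx]))
    (fun x hx => (a2 x).2 (by simp [hQ x hx])) a3 (ZMod.castHom (dvd_refl l) _)
  exfalso
  rcases m3 with ⟨k, e⟩ | ⟨k, e⟩
  · have := (a1 k).1 (by simp [b1])
    simp [← e, div_self hm] at this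
  · have := (a2 k).1 (by simp [b2])
    simp [← e, div_self hm] at this

end Pool.Agent.Lib.MP_56f651_co.RT
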