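import Pool.Agent.Lib.MP_56f651_co.RT.St
import Pool.Agent.Lib.MP_56f651_co.IX.HallA

open Finset

namespace Pool.Agent.Lib.MP_56f651_co.RT

namespace GaussAux

lemma ee_add {n : ℕ} [NeZero n] (a b : ZMod n) : ee (a + b) = ee a * ee b :=
  AddChar.map_add_eq_mul _ a b

lemma ee_zero {n : ℕ} [NeZero n] : ee (0 : ZMod n) = 1 := AddChar.map_zero_eq_one _

lemma ee_norm {n : ℕ} [NeZero n] (a : ZMod n) : ‖ee a‖ = 1 := by
  rw [ee, ZMod.stdAddChar_apply]
  exact Circle.norm_coe _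

lemma ee_sum {l : ℕ} [Fact l.Prime] (b : ZMod l) :
    ∑ k : ZMod l, ee (k * b) = if b = 0 then (l : ℂ) else 0 := by
  have h := AddChar.sum_mulShift (ψ := (ZMod.stdAddChar : AddChar (ZMod l) ℂ)) b
    (ZMod.isPrimitive_stdAddChar l)
  rw [ZMod.card] at h
  rw [h]
  split_ifs <;> simp

variable {l p : ℕ} [Fact l.Prime] [Fact p.Prime] {ι : ZMod p → ZMod l} {g : ZMod p}

lemma ind_one (h : Ind ι g) : ι 1 = 0 := by
  have := h.mul 1 1 one_ne_zero one_ne_zero
  rw [one_mul] at this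
  linear_combination -this

lemma two_ne (hl : l ≠ 2) : (2 : ZMod l) ≠ 0 :=
  Ring.two_ne_zero (by rw [ZMod.ringChar_zmod_n]; exact hl)

lemma ind_neg_one (hl : l ≠ 2) (h : Ind ι g) : ι (-1) = 0 := by
  have h1 : (-1 : ZMod p) ≠ 0 := neg_ne_zero.2 one_ne_zero
  have := h.mul (-1) (-1) h1 h1
  rw [neg_one_mul, neg_neg, ind_one h] at this
  apply mul_left_cancel₀ (two_ne hl)
  linear_combination -this

/-- the even characters -/
noncomputable def psi (h : Ind ι g) (k : ZMod l) : MulChar (ZMod p) ℂ where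
  toFun x := if x = 0 then 0 else ee (k * ι x)
  map_one' := by
    rw [if_neg one_ne_zero, ind_one h, mul_zero, ee_zero]
  map_mul' x y := by
    by_cases hx : x = 0
    · simp [hx]
    by_cases hy : y = 0
    · simp [hy]
    rw [if_neg (mul_ne_zero hx hy), if_neg hx, if_neg hy, h.mul x y hx hy, mul_add, ee_add]
  map_nonunit' a ha := by
    have : a = 0 := by
      by_contra h0
      exact ha (Ne.isUnit h0)
    simp [this]

lemma psi_apply (h : Ind ι g) (k : ZMod l) {x : ZMod p} (hx : x ≠ 0) :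
    psi h k x = ee (k * ι x) := if_neg hx

lemma psi_mul (h : Ind ι g) (j k : ZMod l) : psi h j * psi h k = psi h (j + k) := by
  refine MulChar.ext fun u => ?_
  rw [MulChar.mul_apply, psi_apply h _ u.ne_zero, psi_apply h _ u.ne_zero,
    psi_apply h _ u.ne_zero, add_mul, ee_add]

lemma psi_zero (h : Ind ι g) : psi h 0 = 1 := by
  refine MulChar.ext fun u => ?_
  rw [psi_apply h _ u.ne_zero, zero_mul, ee_zero, MulChar.one_apply_coe]

lemma psi_inv (h : Ind ι g) (k : ZMod l) : (psi h k)⁻¹ = psi h (-k) :=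
  (eq_inv_of_mul_eq_one_right (by rw [psi_mul, add_neg_cancel, psi_zero])).symm

lemma psi_ne (h : Ind ι g) {k : ZMod l} (hk : k ≠ 0) : psi h k ≠ 1 := by
  intro e
  have a : psi h k g = 1 := by rw [e]; exact MulChar.one_apply (Ne.isUnit h.ne)
  rw [psi_apply h _ h.ne, h.one, mul_one, ← ee_zero (n := l)] at a
  exact hk (ZMod.injective_stdAddChar a)

lemma psi_neg_one (hl : l ≠ 2) (h : Ind ι g) (k : ZMod l) : psi h k (-1) = 1 := by
  rw [psi_apply h _ (neg_ne_zero.2 one_ne_zero), ind_neg_one hl h, mul_zero, ee_zero]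

lemma gauss_inv {χ : MulChar (ZMod p) ℂ} (hχ : χ ≠ 1) :
    gaussSum χ ZMod.stdAddChar * gaussSum χ⁻¹ ZMod.stdAddChar = χ⁻¹ (-1) * p := by
  have a := gaussSum_mul_gaussSum_eq_card hχ (ZMod.isPrimitive_stdAddChar p)
  have b := mul_gaussSum_inv_eq_gaussSum χ⁻¹ (ZMod.stdAddChar : AddChar (ZMod p) ℂ)
  rw [ZMod.card] at a
  rw [← b, ← a]
  ring

lemma GG_eq (h : Ind ι g) {k : ZMod l} (hk : k ≠ 0) :
    GG ι k = gaussSum (psi h k) ZMod.stdAddChar := by
  rw [GG, if_neg hk, gaussSum, ← sum_erase (s := univ) (a := (0 : ZMod p))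
    (f := fun a => psi h k a * ZMod.stdAddChar a) (by simp [MulChar.map_zero])]
  exact sum_congr rfl fun x hx => by rw [psi_apply h _ (ne_of_mem_erase hx)]

lemma HH_eq (h : Ind ι g) {ρ : MulChar (ZMod p) ℂ}
    (hρ : ∀ x, ρ x = (quadraticChar (ZMod p) x : ℂ)) (k : ZMod l) :
    HH ι k = gaussSum (ρ * psi h k) ZMod.stdAddChar := by
  rw [HH, gaussSum]
  refine sum_congr rfl fun x _ => ?_
  rw [MulChar.mul_apply, hρ]
  rcases eq_or_ne x 0 with rfl | hx
  · simp
  · rw [psi_apply h _ hx]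

lemma GG_mul (hl : l ≠ 2) (h : Ind ι g) {k : ZMod l} (hk : k ≠ 0) :
    GG ι k * GG ι (-k) = p := by
  rw [GG_eq h hk, GG_eq h (neg_ne_zero.2 hk), ← psi_inv, gauss_inv (psi_ne h hk), psi_inv,
    psi_neg_one hl, one_mul]

lemma jac_gauss (hl : l ≠ 2) (h : Ind ι g) {k : ZMod l} (hk : k ≠ 0) :
    GG ι (2 * k) * jacobiSum (psi h k) (psi h k) = GG ι k ^ 2 := by
  have h2 : 2 * k ≠ 0 := mul_ne_zero (two_ne hl) hk
  have e : psi h k * psi h k = psi h (2 * k) := by rw [psi_mul, two_mul]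
  have a := jacobiSum_mul_nontrivial (χ := psi h k) (φ := psi h k) (e ▸ psi_ne h h2)
    (ZMod.stdAddChar : AddChar (ZMod p) ℂ)
  rw [e] at a
  rw [GG_eq h h2, GG_eq h hk, a, sq]

lemma jac_eq (h : Ind ι g) (k : ZMod l) : jacobiSum (psi h k) (psi h k) =
    ∑ x ∈ univ \ {0, 1}, ee (k * ι (x * (1 - x))) := by
  rw [jacobiSum_eq_sum_sdiff]
  refine sum_congr rfl fun x hx => ?_
  simp only [mem_sdiff, mem_univ, mem_insert, mem_singleton, true_and, not_or] at hx
  have h1 : 1 - x ≠ 0 := sub_ne_zero.2 (Ne.symm hx.2)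
  rw [← map_mul, psi_apply h _ (mul_ne_zero hx.1 h1)]

lemma jac_normSq (hl : l ≠ 2) (h : Ind ι g) {k : ZMod l} (hk : k ≠ 0) :
    Complex.normSq (jacobiSum (psi h k) (psi h k)) = p := by
  have h2 : 2 * k ≠ 0 := mul_ne_zero (two_ne hl) hk
  have e : psi h k * psi h k = psi h (2 * k) := by rw [psi_mul, two_mul]
  have pp := jacobiSum_mul_jacobiSum_inv (F' := ℂ) (χ := psi h k) (φ := psi h k)
    (by rw [ZMod.ringChar_zmod_n, ringChar.eq_zero]; exact (Fact.out : p.Prime).ne_zero.symm)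
    (psi_ne h hk) (psi_ne h hk) (e ▸ psi_ne h h2)
  have st : star (jacobiSum (psi h k) (psi h k)) = jacobiSum (psi h k)⁻¹ (psi h k)⁻¹ := by
    simp only [jacobiSum, star_sum, star_mul', MulChar.star_apply']
  rw [← st, ZMod.card] at pp
  have := Complex.mul_conj (jacobiSum (psi h k) (psi h k))
  have e2 : (Complex.normSq (jacobiSum (psi h k) (psi h k)) : ℂ) = (p : ℂ) := by
    rw [← this]; exact pp
  exact_mod_cast e2

/-- the integer coefficients -/
def TT (ι : ZMod p → ZMod l) (y : ZMod l) : ℤ :=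
  ∑ x ∈ univ \ {0, 1}, ((if ι (x * (1 - x)) = y then (l : ℤ) else 0) -
    (if ι (x * (1 - x)) = 0 then (l : ℤ) else 0))

lemma TT_eq (h : Ind ι g) (y : ZMod l) : (TT ι y : ℂ) =
    ∑ k, (ee (-(k * y)) - 1) * jacobiSum (psi h k) (psi h k) := by
  simp only [jac_eq, mul_sum]
  rw [sum_comm, TT]
  push_cast
  refine sum_congr rfl fun x _ => ?_
  have a := ee_sum (ι (x * (1 - x)) - y)
  have b := ee_sum (ι (x * (1 - x)))
  simp only [sub_eq_zero] at a
  rw [← a, ← b, ← sum_sub_distrib]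
  refine sum_congr rfl fun k _ => ?_
  rw [show k * (ι (x * (1 - x)) - y) = -(k * y) + k * ι (x * (1 - x)) by ring, ee_add]
  ring

end GaussAux

open GaussAux in
theorem stGauss : StGauss := by
  intro l p _ _ ι g hl hp h
  have hF : ringChar (ZMod p) ≠ 2 := by rw [ZMod.ringChar_zmod_n]; omega
  obtain ⟨ρ, hρ⟩ : ∃ ρ : MulChar (ZMod p) ℂ, ∀ x, ρ x = (quadraticChar (ZMod p) x : ℂ) :=
    ⟨(quadraticChar (ZMod p)).ringHomComp (Int.castRingHom ℂ), fun _ => rfl⟩
  have ρ1 : ρ (-1) = -1 := by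
    rw [hρ, quadraticChar_neg_one_iff_not_isSquare.2]
    · simp
    · rw [ZMod.exists_sq_eq_neg_one_iff]
      omega
  have ρρ : ρ * ρ = 1 := by
    refine MulChar.ext fun u => ?_
    rw [MulChar.mul_apply, hρ, MulChar.one_apply_coe, ← Int.cast_mul, ← sq,
      quadraticChar_sq_one u.ne_zero, Int.cast_one]
  have ρψ1 : ∀ k, (ρ * psi h k) (-1) = -1 := fun k => by
    rw [MulChar.mul_apply, ρ1, psi_neg_one hl, mul_one]
  have ρψ : ∀ k, ρ * psi h k ≠ 1 := fun k e => by
    have a := ρψ1 k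
    rw [e, MulChar.one_apply (IsUnit.neg isUnit_one)] at a
    norm_num at a
  have ρi : ∀ k, (ρ * psi h k)⁻¹ = ρ * psi h (-k) := fun k =>
    (eq_inv_of_mul_eq_one_right (by
      rw [mul_mul_mul_comm, ρρ, psi_mul, add_neg_cancel, psi_zero, one_mul])).symm
  have p0 : (p : ℂ) ≠ 0 := Nat.cast_ne_zero.2 (Fact.out : p.Prime).ne_zero
  refine ⟨fun k hk => GG_mul hl h hk, fun k => ?_, ⟨-(ι 2 + ι 2), fun k hk => ?_⟩,
    TT ι, fun y => ?_, ?_, fun y => ?_⟩
  · rw [HH_eq h hρ, HH_eq h hρ, ← ρi, gauss_inv (ρψ k), ρi, ρψ1, neg_one_mul]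
  · have d := IX.HallAAux.jac_dup hF (psi_ne h hk) hρ
    have j1 := jac_gauss hl h hk
    have j2 := jacobiSum_mul_nontrivial (χ := ρ) (φ := psi h k) (ρψ k)
      (ZMod.stdAddChar : AddChar (ZMod p) ℂ)
    have h0 : HH ι 0 = gaussSum ρ ZMod.stdAddChar := by rw [HH_eq h hρ, psi_zero, mul_one]
    rw [← HH_eq h hρ, ← h0, ← GG_eq h hk] at j2
    rw [psi_apply h _ (Ring.two_ne_zero hF)] at d
    have u : ee (k * -(ι 2 + ι 2)) * ee (k * ι 2) ^ 2 = 1 := by
      rw [sq, ← ee_add, ← ee_add, ← ee_zero (n := l)]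
      congr 1
      ring
    have g0 : GG ι k ≠ 0 := left_ne_zero_of_mul (by rw [GG_mul hl h hk]; exact p0)
    apply mul_left_cancel₀ g0
    linear_combination (-HH ι k) * j1 +
      (ee (k * -(ι 2 + ι 2)) * GG ι (2 * k)) * j2 +
      (ee (k * -(ι 2 + ι 2)) * GG ι (2 * k) * HH ι k) * d -
      (GG ι (2 * k) * HH ι k * jacobiSum (psi h k) (psi h k)) * u
  · have r0 : (0 : ℝ) ≤ p := Nat.cast_nonneg p
    have n1 : ∀ k : ZMod l, ‖(ee (-(k * y)) - 1) * jacobiSum (psi h k) (psi h k)‖ ≤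
        2 * Real.sqrt p := fun k => by
      rcases eq_or_ne k 0 with rfl | hk
      · rw [zero_mul, neg_zero, ee_zero, sub_self, zero_mul, norm_zero]
        positivity
      · have a : ‖jacobiSum (psi h k) (psi h k)‖ = Real.sqrt p := by
          rw [← jac_normSq hl h hk, Complex.norm_def]
        have b : ‖ee (-(k * y)) - 1‖ ≤ 2 := by
          refine (norm_sub_le _ _).trans ?_
          rw [ee_norm, norm_one]
          norm_num
        rw [norm_mul, a]
        exact mul_le_mul_of_nonneg_right b (Real.sqrt_nonneg _)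
    have n2 : ‖(TT ι y : ℂ)‖ ≤ l * (2 * Real.sqrt p) := by
      rw [TT_eq h]
      refine (norm_sum_le _ _).trans ?_
      refine (sum_le_card_nsmul _ _ _ fun k _ => n1 k).trans ?_
      rw [card_univ, ZMod.card, nsmul_eq_mul]
    rw [Complex.norm_intCast] at n2
    have n3 : ((TT ι y : ℝ)) ^ 2 ≤ (l * (2 * Real.sqrt p)) ^ 2 := by
      rw [← sq_abs]
      exact pow_le_pow_left₀ (abs_nonneg _) n2 2
    rw [mul_pow, mul_pow, Real.sq_sqrt r0] at n3
    have n4 : ((TT ι y : ℝ)) ^ 2 ≤ 4 * (l : ℝ) ^ 2 * p := by linarith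
    exact_mod_cast n4
  · have e : ∑ y, (TT ι y : ℂ) * ee y = l * jacobiSum (psi h 1) (psi h 1) := by
      simp only [TT_eq h, sum_mul]
      rw [sum_comm]
      have a : ∀ k : ZMod l, ∑ y, (ee (-(k * y)) - 1) * jacobiSum (psi h k) (psi h k) * ee y =
          if k = 1 then (l : ℂ) * jacobiSum (psi h k) (psi h k) else 0 := fun k => by
        have b := ee_sum (1 - k)
        have c := ee_sum (1 : ZMod l)
        rw [if_neg one_ne_zero] at c
        have d : ∀ y : ZMod l, (ee (-(k * y)) - 1) * jacobiSum (psi h k) (psi h k) * ee y =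
            (ee (y * (1 - k)) - ee (y * 1)) * jacobiSum (psi h k) (psi h k) := fun y => by
          rw [show y * (1 - k) = -(k * y) + y by ring, ee_add, mul_one]
          ring
        rw [sum_congr rfl fun y _ => d y, ← sum_mul, sum_sub_distrib, b, c, sub_zero]
        by_cases hk : k = 1
        · rw [if_pos hk, if_pos (by rw [hk, sub_self])]
        · rw [if_neg hk, if_neg (fun e => hk (sub_eq_zero.1 e).symm), zero_mul]
      rw [sum_congr rfl fun k _ => a k, sum_ite_eq' univ (1 : ZMod l), if_pos (mem_univ _)]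
    rw [e, map_mul, jac_normSq hl h one_ne_zero, Complex.normSq_natCast, sq]
  · rw [TT_eq h, mul_sum]
    refine sum_congr rfl fun k _ => ?_
    rcases eq_or_ne k 0 with rfl | hk
    · rw [zero_mul, neg_zero, ee_zero, sub_self, zero_mul, zero_mul, mul_zero]
    · have a := jac_gauss hl h hk
      have b := GG_mul hl h (mul_ne_zero (two_ne hl) hk)
      linear_combination (ee (-(k * y)) - 1) * GG ι (-(2 * k)) * a -
        (ee (-(k * y)) - 1) * jacobiSum (psi h k) (psi h k) * b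

end Pool.Agent.Lib.MP_56f651_co.RT
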