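import Pool.Agent.Lib.MP_56f651_co.RT.St

open Finset Polynomial

namespace Pool.Agent.Lib.MP_56f651_co.RT

lemma Sys.map {R R' : Type} [CommRing R] [CommRing R'] (ψ : R →+* R') {l : ℕ} [NeZero l]
    {α β η γ : ZMod l → R} {p t : R} {G H : ZMod l → R} (S : Sys l α β η γ p t G H) :
    Sys l (fun k => ψ (α k)) (fun k => ψ (β k)) (fun k => ψ (η k)) (fun k => ψ (γ k)) (ψ p) (ψ t)
      (fun k => ψ (G k)) (fun k => ψ (H k)) where
  g0 := by simp [S.g0]
  gg k hk := by rw [← map_mul, S.gg k hk]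
  hh k := by rw [← map_mul, S.hh k, map_neg]
  dup k hk := by rw [← map_mul, S.dup k hk, map_mul, map_mul]
  conv j := by
    have := congrArg ψ (S.conv j)
    simp only [map_sub, map_sum, map_mul] at this
    rw [this]
    split_ifs <;> simp
  tr := by
    have := congrArg ψ S.tr
    simpa only [map_sum, map_mul, map_pow] using this

lemma noPole (hV : StV) {l : ℕ} [Fact l.Prime] (hl : l ≠ 2) {α β η γ : ZMod l → ℂ}
    (hne : ∀ k, k ≠ 0 → α k ≠ 0 ∧ β k ≠ 0 ∧ η k ≠ 0) {F : Type} [Field F] (ω : ℂ[X][X] →+* F)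
    (hω : ∀ R, ω R = 0 → R = 0) (t : F) (hst : ω (C X) * t = 1) (G H : ZMod l → F)
    (S1 : Sys l (fun k => ω (C (C (α k)))) (fun k => ω (C (C (β k)))) (fun k => ω (C (C (η k))))
      (fun k => ω (C (C (γ k)))) (ω X) t G H) : False := by
  have hx : ω X ≠ 0 := fun e => X_ne_zero (hω X e)
  let A : Subring F :=
    { carrier := {x | ∃ (N : ℕ) (R : ℂ[X][X]), ω X ^ N * x = ω R}
      one_mem' := ⟨0, 1, by simp⟩
      zero_mem' := ⟨0, 0, by simp⟩
      mul_mem' := by
        rintro a b ⟨N, R, h⟩ ⟨N', R', h'⟩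
        exact ⟨N + N', R * R', by rw [map_mul, ← h, ← h']; ring⟩
      add_mem' := by
        rintro a b ⟨N, R, h⟩ ⟨N', R', h'⟩
        exact ⟨N + N', X ^ N' * R + X ^ N * R', by
          rw [map_add, map_mul, map_mul, map_pow, map_pow, ← h, ← h']; ring⟩
      neg_mem' := by
        rintro a ⟨N, R, h⟩
        exact ⟨N, -R, by rw [map_neg, ← h]; ring⟩ }
  have mA : ∀ R, ω R ∈ A := fun R => ⟨0, R, by simp⟩
  have hI : Ideal.span {(⟨ω (C X), mA _⟩ : A)} ≠ ⊤ := by
    intro e
    rw [Ideal.span_singleton_eq_top, isUnit_iff_exists_inv] at e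
    obtain ⟨⟨b, N, R, hb⟩, e⟩ := e
    have e1 : ω (C X) * b = 1 := congrArg Subtype.val e
    have e2 := hω (X ^ N - C X * R) (by
      rw [map_sub, map_mul, map_pow, ← hb]
      linear_combination (-ω X ^ N) * e1)
    have e3 := congrArg (fun q : ℂ[X][X] => q.coeff N) (sub_eq_zero.1 e2)
    simp only [coeff_X_pow_self, coeff_C_mul] at e3
    exact not_isUnit_X (IsUnit.of_mul_eq_one _ e3.symm)
  obtain ⟨O, hA, hO⟩ := Ideal.image_subset_nonunits_valuationSubring _ hI
  have v1 : O.valuation (ω (C X)) < 1 := by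
    rw [← O.mem_nonunits_iff]
    exact hO ⟨_, Ideal.mem_span_singleton_self _, rfl⟩
  have ht := hV l F O (ω.comp (C.comp C)) α β η γ (ω X) t G H hl (fun c => hA (mA _)) hne hx
    (hA (mA X)) (hA (show (ω X)⁻¹ ∈ A from ⟨1, 1, by simp [hx]⟩)) S1
  have v2 := (O.valuation_le_one_iff _).2 ht
  have v3 := congrArg O.valuation hst
  rw [map_mul, map_one] at v3
  exact (mul_lt_one_of_nonneg_of_lt_one_left zero_le v1 v2).ne v3

theorem stR (hV : StV) : StR := by
  intro l _ α β η γ S T hl hne hS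
  by_contra hc
  push Not at hc
  choose G H hGH using fun p : S => hS p p.2
  let φ : ℂ[X][X] →+* (S → ℂ) := RingHom.pi fun p =>
    (evalRingHom ((p : ℕ) : ℂ)).comp (mapRingHom (evalRingHom ((T p : ℂ)⁻¹)))
  obtain ⟨P, hP, -, hd⟩ := Ideal.exists_le_prime_disjoint (⊥ : Ideal (S → ℂ))
    ((nonZeroDivisors ℂ[X][X]).map φ) (by
      rw [Set.disjoint_left]
      rintro _ h0 ⟨R, hR, rfl⟩
      obtain ⟨p, hp, e⟩ := hc R (nonZeroDivisors.ne_zero hR)
      exact e (congrFun (show φ R = 0 from h0) ⟨p, hp⟩))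
  let F := FractionRing ((S → ℂ) ⧸ P)
  let ψ : (S → ℂ) →+* F := (algebraMap ((S → ℂ) ⧸ P) F).comp (Ideal.Quotient.mk P)
  have hψ : ∀ R, R ≠ 0 → ψ (φ R) ≠ 0 := fun R hR e => by
    have e1 : Ideal.Quotient.mk P (φ R) = 0 :=
      (map_eq_zero_iff _ (IsFractionRing.injective ((S → ℂ) ⧸ P) F)).1 e
    exact Set.disjoint_left.1 hd (Ideal.Quotient.eq_zero_iff_mem.1 e1)
      ⟨R, mem_nonZeroDivisors_of_ne_zero hR, rfl⟩
  let ω : ℂ[X][X] →+* F := ψ.comp φ
  have hω : ∀ R, ω R = 0 → R = 0 := fun R e => by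
    by_contra h
    exact hψ R h e
  have eX : φ X = fun p : S => ((p : ℕ) : ℂ) := by
    funext p
    simp [φ]
  have eC : φ (C X) = fun p : S => ((T p : ℂ))⁻¹ := by
    funext p
    simp [φ]
  have eK : ∀ c : ℂ, φ (C (C c)) = fun _ => c := fun c => by
    funext p
    simp [φ]
  have S0 : Sys l (fun k (_ : S) => α k) (fun k _ => β k) (fun k _ => η k) (fun k _ => γ k)
      (fun p : S => ((p : ℕ) : ℂ)) (fun p => (T p : ℂ)) (fun k p => G p k) (fun k p => H p k) :=
    { g0 := funext fun p => (hGH p).g0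
      gg := fun k hk => funext fun p => (hGH p).gg k hk
      hh := fun k => funext fun p => (hGH p).hh k
      dup := fun k hk => funext fun p => (hGH p).dup k hk
      conv := fun j => funext fun p => by
        have := (hGH p).conv j
        simp only [Pi.sub_apply, Finset.sum_apply, Pi.mul_apply]
        rw [this]
        split_ifs <;> simp
      tr := funext fun p => by
        have := (hGH p).tr
        simpa only [Finset.sum_apply, Pi.mul_apply, Pi.pow_apply] using this }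
  have S1 := S0.map ψ
  have ef : ∀ c : ℂ, ψ (fun _ => c) = ω (C (C c)) := fun c => by rw [← eK]; rfl
  simp only [ef] at S1
  rw [← eX] at S1
  have hs : ω (C X) ≠ 0 := hψ _ (C_ne_zero.2 X_ne_zero)
  have hst : ω (C X) * ψ (fun p => (T p : ℂ)) = 1 := by
    refine mul_left_cancel₀ hs ?_
    change ψ (φ _) * (ψ (φ _) * _) = ψ (φ _) * 1
    rw [mul_one, ← map_mul, ← map_mul, eC]
    congr 1
    funext p
    by_cases e : (T p : ℂ) = 0 <;> simp [e]
  exact noPole hV hl hne ω hω _ hst _ _ S1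

end Pool.Agent.Lib.MP_56f651_co.RT
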