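import Pool.Agent.Lib.MP_56f651_co.RT.V
import Pool.Agent.Lib.MP_56f651_co.RT.R
import Pool.Agent.Lib.MP_56f651_co.RT.Conv
import Pool.Agent.Lib.MP_56f651_co.RT.Count
import Pool.Agent.Lib.MP_56f651_co.RT.Gauss
import Pool.Agent.Lib.MP_56f651_co.IX.Final
import Pool.Agent.Lib.MP_56f651_co.IX.Real
import Pool.Agent.Lib.MP_56f651_co.IX.Core
import Pool.Agent.Lib.MP_56f651_co.IX.T
import Pool.Agent.Lib.MP_56f651_co.IX.Kill
import Pool.Agent.Lib.MP_56f651_co.IX.Small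
import Pool.Agent.Lib.MP_56f651_co.IX.HallA
import Pool.Agent.Lib.MP_56f651_co.IX.HallB
import Pool.Agent.Lib.MP_56f651_co.IX.Prime

open Finset

namespace Pool.Agent.Lib.MP_56f651_co.RT

/-- sets with counting function of order at most the square root -/
def Thin (S : Set ℕ) : Prop := ∃ C : ℝ, ∀ x : ℕ, ((S ∩ Set.Iic x).ncard : ℝ) ≤ C * Real.sqrt x

lemma Thin.mono {S S' : Set ℕ} (h : Thin S') (hs : S ⊆ S') : Thin S := by
  obtain ⟨C, hC⟩ := h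
  refine ⟨C, fun x => le_trans ?_ (hC x)⟩
  exact_mod_cast Set.ncard_le_ncard (Set.inter_subset_inter_left _ hs)
    ((Set.finite_Iic x).inter_of_right _)

lemma Thin.union {S S' : Set ℕ} (h : Thin S) (h' : Thin S') : Thin (S ∪ S') := by
  obtain ⟨C, hC⟩ := h
  obtain ⟨C', hC'⟩ := h'
  refine ⟨C + C', fun x => ?_⟩
  rw [Set.union_inter_distrib_right, add_mul]
  exact le_trans (by exact_mod_cast Set.ncard_union_le _ _) (add_le_add (hC x) (hC' x))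

lemma thin_Icc (n : ℕ) : Thin (Set.Icc 1 n) := by
  refine ⟨n, fun x => ?_⟩
  rcases Nat.eq_zero_or_pos x with rfl | hx
  · rw [show Set.Icc 1 n ∩ Set.Iic 0 = ∅ from Set.eq_empty_of_forall_notMem fun y hy => by
      have := hy.1.1
      have := Set.mem_Iic.1 hy.2
      omega]
    simp
  · have h1 : (Set.Icc 1 n ∩ Set.Iic x).ncard ≤ n := by
      have := Set.ncard_le_ncard (Set.inter_subset_left (s := Set.Icc 1 n) (t := Set.Iic x))
        (Set.finite_Icc _ _)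
      simpa using this
    have h2 : (1 : ℝ) ≤ Real.sqrt x := Real.one_le_sqrt.2 (by exact_mod_cast hx)
    exact le_trans (by exact_mod_cast h1) (le_mul_of_one_le_right (Nat.cast_nonneg _) h2)

lemma thin_biUnion {ι : Type} (I : Finset ι) (S : ι → Set ℕ) (h : ∀ i, Thin (S i)) :
    Thin (⋃ i ∈ I, S i) := by
  classical
  induction I using Finset.induction_on with
  | empty => exact ⟨0, fun x => by simp⟩
  | insert a I _ ih =>
    rw [Finset.set_biUnion_insert]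
    exact (h a).union ih

/-- the orders that belong to one pattern -/
def Pat (l : ℕ) [NeZero l] (A B : ZMod l → ℤ) (c : ZMod l) : Set ℕ :=
  {p | 0 < p ∧ (∀ k, k ≠ 0 → ft A k ≠ 0 ∧ ft B k ≠ 0) ∧ ∃ T : ZMod l → ℤ,
    (∀ y, T y ^ 2 ≤ 4 * l ^ 2 * p) ∧
    Complex.normSq (∑ y, (T y : ℂ) * ee y) = (l : ℝ) ^ 2 * p ∧ ∃ G H, ∀ y,
      Sys l (al A) (ft B) (fun k => ee (k * c)) (fun k => ee (-(k * y)) - 1) (p : ℂ) (T y : ℂ) G H}

lemma thin_pat (l : ℕ) [Fact l.Prime] (hl : l ≠ 2) (A B : ZMod l → ℤ) (c : ZMod l) :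
    Thin (Pat l A B c) := by
  classical
  by_cases hne : ∀ k, k ≠ 0 → ft A k ≠ 0 ∧ ft B k ≠ 0
  swap
  · exact (thin_Icc 0).mono fun p hp => absurd hp.2.1 hne
  choose! T h1 h2 h3 using fun p (hp : p ∈ Pat l A B c) => hp.2.2
  have hl0 : (l : ℝ) ^ 2 ≠ 0 := pow_ne_zero _ (Nat.cast_ne_zero.2 (NeZero.ne l))
  refine stCount (ZMod l) _ (fun y p => T p y) (4 * l ^ 2)
    (fun U => ⌊Complex.normSq (∑ y, (U y : ℂ) * ee y) / (l : ℝ) ^ 2⌋₊) (fun p hp => hp.1)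
    (fun p hp y => by exact_mod_cast h1 p hp y) (fun p hp => ?_) fun y => ?_
  · rw [h2 p hp, mul_div_cancel_left₀ _ hl0, Nat.floor_natCast]
  · refine stR (stV stF) l (al A) (ft B) (fun k => ee (k * c)) (fun k => ee (-(k * y)) - 1) _
      (fun p => T p y) hl (fun k hk => ⟨?_, (hne k hk).2, ?_⟩) fun p hp => ?_
    · rw [al, if_neg hk]
      exact (hne k hk).1
    · exact (AddChar.val_isUnit _ _).ne_zero
    · obtain ⟨G, H, h⟩ := h3 p hp
      exact ⟨G, H, h y⟩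

open Pool.Agent.Lib.MP_56f651_co.IX in
theorem final (l : ℕ) (hl : l.Prime) : ∃ (C : ℝ) (E : Set ℕ), (∀ v ∈ E, v.Prime) ∧
    (∀ x : ℕ, ((E ∩ Set.Iic x).ncard : ℝ) ≤ C * Real.sqrt x) ∧
    ∀ (v : ℕ) (D : Finset (ZMod v)),
      v % 4 = 3 →
      D.card = (v - 1) / 2 →
      (∀ d : ZMod v, d ≠ 0 →
        ((D ×ˢ D).filter (fun q => q.1 - q.2 = d)).card = (v - 3) / 4) →
      ∀ M : Subgroup (ZMod v)ˣ, (M.index ≤ 7 ∨ M.index = 2 * l) →
      (∀ t ∈ M, ∃ b : ZMod v, D.image (fun x => (t : ZMod v) * x) = D.image (fun x => x + b)) →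
      (∃ a b : ZMod v, IsUnit a ∧
        ((v.Prime ∧ ∀ x : ZMod v, x ∈ D ↔ (a * x + b ≠ 0 ∧ IsSquare (a * x + b))) ∨
         (v.Prime ∧ (∃ c : ℕ, v = 4 * c ^ 2 + 27) ∧
           ∃ g : ZMod v, orderOf g = v - 1 ∧ (∃ m : ℕ, g ^ (6 * m + 1) = 3) ∧
             ∀ x : ZMod v, x ∈ D ↔
               ∃ k : ℕ, (k % 6 = 0 ∨ k % 6 = 1 ∨ k % 6 = 3) ∧ g ^ k = a * x + b) ∨
         (∃ p : ℕ, p.Prime ∧ (p + 2).Prime ∧ v = p * (p + 2) ∧
           ∀ x : ZMod v, x ∈ D ↔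
             (jacobiSym ((a * x + b).val : ℤ) p * jacobiSym ((a * x + b).val : ℤ) (p + 2) = 1 ∨
              (a * x + b).val % (p + 2) = 0)))) ∨
      v = 63 ∨ (v ∈ E ∧ 10 ≤ M.index) := by
  classical
  have := Fact.mk hl
  have old := final_of stReal (stT stCore) stKill stSmall (stPrime stCore stSmall stHallA stHallB)
  by_cases h2 : l = 2
  · refine ⟨0, ∅, by simp, by simp, fun v D hv hD hd M hM hm => ?_⟩
    rcases old v D hv hD hd M (hM.imp_right fun h => ⟨l, hl, h⟩) hm with h | h | h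
    · exact Or.inl h
    · exact Or.inr (Or.inl h)
    · omega
  let I := (Fintype.piFinset fun _ : ZMod l => Icc (-2 : ℤ) 2) ×ˢ
    (Fintype.piFinset fun _ : ZMod l => Icc (-2 : ℤ) 2) ×ˢ (univ : Finset (ZMod l))
  let E0 : Set ℕ := Set.Icc 1 (2 * l + 1) ∪ ⋃ i ∈ I, Pat l i.1 i.2.1 i.2.2
  obtain ⟨C, hC⟩ := (((thin_Icc _).union (thin_biUnion I _ fun i => thin_pat l h2 _ _ _)).mono
    (Set.inter_subset_right (s := {v | v.Prime}) (t := E0)))
  refine ⟨C, _, fun v hv => hv.1, hC, fun v D hv hD hd M hM hm => ?_⟩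
  rcases old v D hv hD hd M (hM.imp_right fun h => ⟨l, hl, h⟩) hm with h | h | ⟨hp, h10⟩
  · exact Or.inl h
  · exact Or.inr (Or.inl h)
  have hi : M.index = 2 * l := by omega
  by_cases hs : v ≤ 2 * l + 1
  · exact Or.inr (Or.inr ⟨⟨hp, Or.inl ⟨hp.one_le, hs⟩⟩, h10⟩)
  have := Fact.mk hp
  obtain ⟨s, c, h, hs', hx⟩ := setup D hv hD hd M hm
  have h4 := M.index_dvd_card
  rw [Nat.card_eq_fintype_card, ZMod.card_units, hi] at h4
  obtain ⟨ι, g, hι⟩ := stChar l v h2 h4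
  obtain ⟨g1, g2, ⟨c0, g3⟩, T, t1, t2, t3⟩ := stGauss l v ι g h2 hv hι
  rcases stConv l v ι g s h2 hv (by omega) h4 hι h (fun a ha x => by
    have := hs' _ (M.pow_index_mem (Units.mk0 a ha)) x
    rwa [hi] at this) with ⟨k0, k1⟩ | ⟨A, B, k1, k2, k3⟩
  · obtain ⟨a, b, ha, h5⟩ := two_concl hv (by omega) h (PrimeAux.skew stCore h k0 k1)
    have e : ∀ x, a * (x - c) + b = a * x + (b - a * c) := fun x => by ring
    refine Or.inl ⟨a, b - a * c, ha, ?_⟩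
    rcases h5 with ⟨h5, h6⟩ | ⟨p, hp, hq, h5, h6⟩
    · exact Or.inl ⟨h5, fun x => by rw [hx, h6, e]⟩
    · exact Or.inr (Or.inr ⟨p, hp, hq, h5, fun x => by rw [hx, h6, e]⟩)
  · refine Or.inr (Or.inr ⟨⟨hp, Or.inr ?_⟩, h10⟩)
    refine Set.mem_biUnion (x := (A, B, c0)) (mem_coe.2 ?_) ⟨hp.pos, k2, T, t1, t2, GG ι, HH ι,
      fun y => ⟨by simp [GG], g1, g2, g3, k3, t3 y⟩⟩
    simp only [I, mem_product, Fintype.mem_piFinset, mem_Icc, mem_univ, and_true]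
    exact ⟨fun y => abs_le.1 (k1 y).1, fun y => abs_le.1 (k1 y).2⟩

end Pool.Agent.Lib.MP_56f651_co.RT
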