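import Pool.Agent.Lib.MP_56f651_co.IX.St

open Finset

namespace Pool.Agent.Lib.MP_56f651_co.RT

/-- the system of equations satisfied by the Gauss sums -/
structure Sys {R : Type} [CommRing R] (l : ℕ) [NeZero l] (α β η γ : ZMod l → R) (p t : R)
    (G H : ZMod l → R) : Prop where
  g0 : G 0 = 1
  gg : ∀ k, k ≠ 0 → G k * G (-k) = p
  hh : ∀ k, H k * H (-k) = -p
  dup : ∀ k, k ≠ 0 → G k * H k = η k * G (2 * k) * H 0
  conv : ∀ j, ∑ k, α k * G k * (α (j - k) * G (j - k)) - ∑ k, β k * H k * (β (j - k) * H (j - k)) =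
    if j = 0 then α 0 ^ 2 * (p + 1) else 0
  tr : p * t = ∑ k, γ k * (G k ^ 2 * G (-(2 * k)))

/-- the standard additive character -/
noncomputable abbrev ee {n : ℕ} [NeZero n] (y : ZMod n) : ℂ := ZMod.stdAddChar y

/-- Fourier coefficients of an integer function -/
noncomputable def ft {l : ℕ} [NeZero l] (B : ZMod l → ℤ) (k : ZMod l) : ℂ :=
  ∑ y, (B y : ℂ) * ee (-(k * y))

/-- Fourier coefficients with the constant term replaced -/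
noncomputable def al {l : ℕ} [NeZero l] (A : ZMod l → ℤ) (k : ZMod l) : ℂ :=
  if k = 0 then 2 * l else ft A k

/-- Gauss sums of the even characters -/
noncomputable def GG {l p : ℕ} [NeZero l] [Fact p.Prime] (ι : ZMod p → ZMod l) (k : ZMod l) : ℂ :=
  if k = 0 then 1 else ∑ x ∈ univ.erase (0 : ZMod p), ee (k * ι x) * ee x

/-- Gauss sums of the odd characters -/
noncomputable def HH {l p : ℕ} [NeZero l] [Fact p.Prime] (ι : ZMod p → ZMod l) (k : ZMod l) : ℂ :=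
  ∑ x : ZMod p, (quadraticChar (ZMod p) x : ℂ) * ee (k * ι x) * ee x

/-- an index function modulo `l` -/
structure Ind {l p : ℕ} [Fact p.Prime] (ι : ZMod p → ZMod l) (g : ZMod p) : Prop where
  ne : g ≠ 0
  sq : IsSquare g
  one : ι g = 1
  mul : ∀ x y, x ≠ 0 → y ≠ 0 → ι (x * y) = ι x + ι y
  ker : ∀ x, x ≠ 0 → ι x = 0 → IsSquare x → ∃ a : ZMod p, a ≠ 0 ∧ x = a ^ (2 * l)

/-- the index function exists -/
def StChar : Prop :=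
  ∀ (l p : ℕ) [Fact l.Prime] [Fact p.Prime], l ≠ 2 → 2 * l ∣ p - 1 →
    ∃ (ι : ZMod p → ZMod l) (g : ZMod p), Ind ι g

/-- relations between Gauss and Jacobi sums -/
def StGauss : Prop :=
  ∀ (l p : ℕ) [Fact l.Prime] [Fact p.Prime] (ι : ZMod p → ZMod l) (g : ZMod p), l ≠ 2 →
    p % 4 = 3 → Ind ι g →
    (∀ k, k ≠ 0 → GG ι k * GG ι (-k) = p) ∧ (∀ k, HH ι k * HH ι (-k) = -p) ∧
    (∃ c : ZMod l, ∀ k, k ≠ 0 → GG ι k * HH ι k = ee (k * c) * GG ι (2 * k) * HH ι 0) ∧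
    ∃ T : ZMod l → ℤ, (∀ y, T y ^ 2 ≤ 4 * l ^ 2 * p) ∧
      Complex.normSq (∑ y, (T y : ℂ) * ee y) = (l : ℝ) ^ 2 * p ∧
      ∀ y, (p : ℂ) * T y = ∑ k, (ee (-(k * y)) - 1) * (GG ι k ^ 2 * GG ι (-(2 * k)))

/-- the autocorrelation condition in terms of Gauss sums -/
def StConv : Prop :=
  ∀ (l p : ℕ) [Fact l.Prime] [Fact p.Prime] (ι : ZMod p → ZMod l) (g : ZMod p) (s : ZMod p → ℤ),
    l ≠ 2 → p % 4 = 3 → 2 * l + 1 < p → 2 * l ∣ p - 1 → Ind ι g → Had s →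
    (∀ a : ZMod p, a ≠ 0 → ∀ x, s (a ^ (2 * l) * x) = s x) →
    (s 0 = 1 ∧ ∀ x, x ≠ 0 → s (-x) = -s x) ∨
    ∃ A B : ZMod l → ℤ, (∀ y, |A y| ≤ 2 ∧ |B y| ≤ 2) ∧ (∀ k, k ≠ 0 → ft A k ≠ 0 ∧ ft B k ≠ 0) ∧
      ∀ j, ∑ k, al A k * GG ι k * (al A (j - k) * GG ι (j - k)) -
        ∑ k, ft B k * HH ι k * (ft B (j - k) * HH ι (j - k)) =
        if j = 0 then al A 0 ^ 2 * ((p : ℂ) + 1) else 0

/-- counting integer points -/
def StCount : Prop :=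
  ∀ (ι : Type) [Fintype ι] (S : Set ℕ) (T : ι → ℕ → ℤ) (c : ℕ) (Φ : (ι → ℤ) → ℕ),
    (∀ p ∈ S, 0 < p) → (∀ p ∈ S, ∀ i, T i p ^ 2 ≤ c * p) → (∀ p ∈ S, p = Φ fun i => T i p) →
    (∀ i, ∃ R : Polynomial (Polynomial ℂ), R ≠ 0 ∧
      ∀ p ∈ S, (R.map (Polynomial.evalRingHom ((T i p : ℂ)⁻¹))).eval (p : ℂ) = 0) →
    ∃ C : ℝ, ∀ x : ℕ, ((S ∩ Set.Iic x).ncard : ℝ) ≤ C * Real.sqrt x

/-- equal convolution squares with small disjoint supports vanish -/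
def StF : Prop :=
  ∀ (l : ℕ) [Fact l.Prime] (K : Type) [Field K] [CharZero K] (P Q : ZMod l → K)
    (Le Lo : Finset (ZMod l)), l ≠ 2 → Disjoint Le Lo → 2 * Le.card + Lo.card ≤ l + 1 →
    2 * Lo.card ≤ l + 1 → (∀ k, k ∉ Le → P k = 0) → (∀ k, k ∉ Lo → Q k = 0) →
    (∀ j, ∑ k, P k * P (j - k) = ∑ k, Q k * Q (j - k)) → P = 0 ∧ Q = 0

/-- no poles -/
def StV : Prop :=
  ∀ (l : ℕ) [Fact l.Prime] (F : Type) [Field F] (O : ValuationSubring F) (f : ℂ →+* F)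
    (α β η γ : ZMod l → ℂ) (p t : F) (G H : ZMod l → F), l ≠ 2 → (∀ c, f c ∈ O) →
    (∀ k, k ≠ 0 → α k ≠ 0 ∧ β k ≠ 0 ∧ η k ≠ 0) → p ≠ 0 → p ∈ O → p⁻¹ ∈ O →
    Sys l (fun k => f (α k)) (fun k => f (β k)) (fun k => f (η k)) (fun k => f (γ k)) p t G H →
    t ∈ O

/-- a polynomial relation -/
def StR : Prop :=
  ∀ (l : ℕ) [Fact l.Prime] (α β η γ : ZMod l → ℂ) (S : Set ℕ) (T : ℕ → ℤ), l ≠ 2 →
    (∀ k, k ≠ 0 → α k ≠ 0 ∧ β k ≠ 0 ∧ η k ≠ 0) →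
    (∀ p ∈ S, ∃ G H, Sys l α β η γ (p : ℂ) (T p : ℂ) G H) →
    ∃ R : Polynomial (Polynomial ℂ), R ≠ 0 ∧
      ∀ p ∈ S, (R.map (Polynomial.evalRingHom ((T p : ℂ)⁻¹))).eval (p : ℂ) = 0

end Pool.Agent.Lib.MP_56f651_co.RT
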