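import Pool.Agent.Lib.MP_56f651_co.RT.F

open Finset

namespace Pool.Agent.Lib.MP_56f651_co.RT

lemma six0 (A A' B B' C C' : Prop) [Decidable A] [Decidable A'] [Decidable B] [Decidable B']
    [Decidable C] [Decidable C'] (n1 : ¬ (A ∧ A')) (n2 : ¬ (B ∧ B')) (n3 : ¬ (C ∧ C'))
    (n4 : ¬ (A ∧ C)) (n5 : ¬ (A' ∧ C')) (n6 : ¬ (A ∧ C' ∧ (B ∨ B'))) (n7 : ¬ (A' ∧ C ∧ (B ∨ B'))) :
    (if A then 1 else 0) + (if A' then 1 else 0) + (if B then 1 else 0) +
      (if B' then 1 else 0) + (if C then 1 else 0) + (if C' then 1 else 0) ≤ 2 := by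
  by_cases a : A <;> by_cases a' : A' <;> by_cases b : B <;> by_cases b' : B' <;>
    by_cases c : C <;> by_cases c' : C' <;> simp_all

lemma six {Γ : Type} [LinearOrderedCommGroupWithZero Γ] {μ a a' b b' c c' : Γ} (hμ : 1 < μ)
    (ha : a * a' = 1) (hb : b * b' = 1) (hc : c * c' = 1) (h1 : a * c = b) (h2 : a' * c' = b')
    (l1 : b ≤ μ) (l2 : b' ≤ μ) :
    (if a = μ then 1 else 0) + (if a' = μ then 1 else 0) + (if b = μ then 1 else 0) +
      (if b' = μ then 1 else 0) + (if c = μ then 1 else 0) + (if c' = μ then 1 else 0) ≤ 2 := by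
  have h0 : 0 < μ := zero_lt_one.trans hμ
  have hh : ¬ μ * μ ≤ μ := not_le.2 (lt_mul_of_one_lt_right h0 hμ)
  have n0 : ∀ x y : Γ, x * y ≤ μ → ¬ (x = μ ∧ y = μ) := fun x y e ⟨e1, e2⟩ =>
    hh (by rwa [e1, e2] at e)
  have n1 := n0 a a' (ha ▸ hμ.le)
  have n2 := n0 b b' (hb ▸ hμ.le)
  have n3 := n0 c c' (hc ▸ hμ.le)
  have n4 := n0 a c (h1 ▸ l1)
  have n5 := n0 a' c' (h2 ▸ l2)
  have n6 : ¬ (a = μ ∧ c' = μ ∧ (b = μ ∨ b' = μ)) := by
    rintro ⟨e1, e2, e3⟩
    have : b = 1 := by rw [← h1, e1, ← e2, mul_comm, hc]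
    have h' : b' = 1 := by rwa [this, one_mul] at hb
    rcases e3 with e | e
    · exact hμ.ne (this.symm.trans e)
    · exact hμ.ne (h'.symm.trans e)
  have n7 : ¬ (a' = μ ∧ c = μ ∧ (b = μ ∨ b' = μ)) := by
    rintro ⟨e1, e2, e3⟩
    have : b' = 1 := by rw [← h2, e1, ← e2, hc]
    have h' : b = 1 := by rwa [this, mul_one] at hb
    rcases e3 with e | e
    · exact hμ.ne (h'.symm.trans e)
    · exact hμ.ne (this.symm.trans e)
  exact six0 _ _ _ _ _ _ n1 n2 n3 n4 n5 n6 n7

lemma comb {l : ℕ} [Fact l.Prime] (hl : l ≠ 2) {Γ : Type} [LinearOrderedCommGroupWithZero Γ]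
    {μ : Γ} (hμ : 1 < μ) (g h : ZMod l → Γ) (gg : ∀ k, g k * g (-k) = 1)
    (hh : ∀ k, h k * h (-k) = 1) (dup : ∀ k, g k * h k = g (2 * k)) (hg : ∀ k, g k ≤ μ) :
    Disjoint (univ.filter fun k => g k = μ) (univ.filter fun k => h k = μ) ∧
      2 * (univ.filter fun k => g k = μ).card + (univ.filter fun k => h k = μ).card ≤ l + 1 ∧
      2 * (univ.filter fun k => h k = μ).card ≤ l + 1 := by
  have h0 : 0 < μ := zero_lt_one.trans hμ
  have hn : ¬ μ * μ ≤ μ := not_le.2 (lt_mul_of_one_lt_right h0 hμ)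
  have h2 : (2 : ZMod l) ≠ 0 := fun e => by
    have : ((2 : ℕ) : ZMod l) = 0 := by exact_mod_cast e
    rw [ZMod.natCast_eq_zero_iff] at this
    exact hl ((Nat.prime_dvd_prime_iff_eq Fact.out Nat.prime_two).1 this)
  have e1 : ∀ u : ZMod l → Γ, ∑ k, (if u (-k) = μ then 1 else 0) =
      (univ.filter fun k => u k = μ).card := fun u => by
    rw [card_filter]
    exact Equiv.sum_comp (Equiv.neg _) fun k => if u k = μ then 1 else 0
  have e2 : ∀ u : ZMod l → Γ, ∑ k, (if u (2 * k) = μ then 1 else 0) =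
      ∑ k, (if u k = μ then 1 else 0) := fun u =>
    Equiv.sum_comp (Equiv.mulLeft₀ 2 h2) fun k => if u k = μ then 1 else 0
  refine ⟨disjoint_left.2 fun k a b => hn ?_, ?_, ?_⟩
  · have := hg (2 * k)
    rwa [← dup, (mem_filter.1 a).2, (mem_filter.1 b).2] at this
  · have := sum_le_sum (s := univ) fun k _ => six hμ (gg k) (gg (2 * k)) (hh k) (dup k)
      (by rw [dup, mul_neg]) (hg _) (hg _)
    simp only [sum_add_distrib] at this
    rw [e2 g, e2 fun k => g (-k), e1, e1, ← card_filter, ← card_filter, sum_const, card_univ,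
      ZMod.card, smul_eq_mul] at this
    omega
  · have : ∑ k, ((if h k = μ then 1 else 0) + if h (-k) = μ then 1 else 0) ≤
        ∑ _k : ZMod l, 1 := sum_le_sum fun k _ => by
      split_ifs with a b
      · exact absurd (by have := hh k; rw [a, b] at this; rw [this]; exact hμ.le) hn
      all_goals omega
    rw [sum_add_distrib, e1, ← card_filter, sum_const, card_univ, ZMod.card, smul_eq_mul] at this
    omega

theorem stV (hF : StF) : StV := by
  intro l _ F _ O f α β η γ p t G H hl hf hne hp0 hp hp' S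
  have le1 : ∀ {x : F}, x ∈ O → O.valuation x ≤ 1 := fun hx => (O.valuation_le_one_iff _).2 hx
  have un : ∀ {x : F}, x ≠ 0 → x ∈ O → x⁻¹ ∈ O → O.valuation x = 1 := fun {x} h0 h1 h2 => by
    refine le_antisymm (le1 h1) ?_
    have := le1 h2
    rw [map_inv₀] at this
    exact (inv_le_one₀ (zero_lt_iff.2 (by simpa using h0))).1 this
  have vf : ∀ c, c ≠ 0 → O.valuation (f c) = 1 := fun c hc =>
    un (by simpa using hc) (hf c) (by rw [← map_inv₀]; exact hf _)
  have vp := un hp0 hp hp'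
  have gg : ∀ k, O.valuation (G k) * O.valuation (G (-k)) = 1 := fun k => by
    by_cases e : k = 0
    · simp [e, S.g0]
    · rw [← map_mul, S.gg k e, vp]
  have hh : ∀ k, O.valuation (H k) * O.valuation (H (-k)) = 1 := fun k => by
    rw [← map_mul, S.hh k, Valuation.map_neg, vp]
  have h0 : O.valuation (H 0) = 1 := by
    have := hh 0
    rw [neg_zero] at this
    rcases lt_trichotomy (O.valuation (H 0)) 1 with c | c | c
    · exact absurd this (mul_lt_one_of_nonneg_of_lt_one_left zero_le c c.le).ne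
    · exact c
    · exact absurd this (c.trans (lt_mul_of_one_lt_right (zero_lt_one.trans c) c)).ne'
  have dup : ∀ k, O.valuation (G k) * O.valuation (H k) = O.valuation (G (2 * k)) := fun k => by
    by_cases e : k = 0
    · simp [e, S.g0, h0]
    · rw [← map_mul, S.dup k e, map_mul, map_mul, vf _ (hne k e).2.2, h0, one_mul, mul_one]
  have main : ∀ k, O.valuation (G k) ≤ 1 := by
    by_contra hc
    push Not at hc
    obtain ⟨k0, hk0⟩ := hc
    obtain ⟨m, m1, m2, m3⟩ := exists_top O G H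
    have hμ : 1 < O.valuation m := hk0.trans_le (m1 k0)
    have hv : 0 < O.valuation m := zero_lt_one.trans hμ
    have hm : m ≠ 0 := by
      rintro rfl
      simp at hv
    obtain ⟨c1, c2, c3⟩ := comb hl hμ (fun k => O.valuation (G k)) (fun k => O.valuation (H k))
      gg hh dup m1
    have b1 : ∀ (c : ℂ) (x : F), O.valuation (f c * x / m) ≤ O.valuation x / O.valuation m :=
      fun c x => by
        rw [map_div₀, map_mul]
        exact div_le_div_of_nonneg_right (mul_le_of_le_one_left' (le1 (hf c))) hv.le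
    obtain ⟨P', Q', a1, a2, a3⟩ := reduce O (fun k => f (α k) * G k / m)
      (fun k => f (β k) * H k / m) (f (α 0) ^ 2 * (p + 1) / (m * m))
      (fun k => (b1 _ _).trans (div_le_one_of_le₀ (m1 k) hv.le))
      (fun k => (b1 _ _).trans (div_le_one_of_le₀ (m2 k) hv.le)) (by
        rw [map_div₀, div_lt_one₀ (by rw [map_mul]; exact mul_pos hv hv), map_mul O.valuation m]
        exact (le1 (O.mul_mem _ _ (O.pow_mem (hf _) _) (O.add_mem _ _ hp O.one_mem))).trans_lt
          (hμ.trans (lt_mul_of_one_lt_right hv hμ))) fun j => by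
      simp only [div_mul_div_comm, ← sum_div, ← sub_div, S.conv j]
      split_ifs <;> simp
    have : CharZero (IsLocalRing.ResidueField O) := by
      refine ⟨fun a b hab => ?_⟩
      by_contra hne'
      have e : IsLocalRing.residue O ((a : O) - b) = 0 := by
        rw [map_sub, map_natCast, map_natCast, hab, sub_self]
      rw [IsLocalRing.residue_eq_zero_iff, O.valuation_lt_one_iff] at e
      have e2 := vf ((a : ℂ) - b) (sub_ne_zero.2 (by exact_mod_cast hne'))
      rw [map_sub, map_natCast, map_natCast] at e2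
      push_cast at e
      exact e.ne e2
    obtain ⟨d1, d2⟩ := hF l _ P' Q' _ _ hl c1 c2 c3
      (fun k hk => (a1 k).2 ((b1 _ _).trans_lt ((div_lt_one₀ hv).2
        (lt_of_le_of_ne (m1 k) (by simpa using hk)))))
      (fun k hk => (a2 k).2 ((b1 _ _).trans_lt ((div_lt_one₀ hv).2
        (lt_of_le_of_ne (m2 k) (by simpa using hk))))) a3
    rcases m3 with ⟨k, e⟩ | ⟨k, e⟩
    · have hk : k ≠ 0 := by
        rintro rfl
        simp [e, S.g0] at hμ
      have := (a1 k).1 (by simp [d1])
      rw [← e, mul_div_cancel_right₀ _ hm, vf _ (hne k hk).1] at this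
      exact this.ne rfl
    · have hk : k ≠ 0 := by
        rintro rfl
        simp [e, h0] at hμ
      have := (a2 k).1 (by simp [d2])
      rw [← e, mul_div_cancel_right₀ _ hm, vf _ (hne k hk).2.1] at this
      exact this.ne rfl
  have mG : ∀ k, G k ∈ O := fun k => (O.valuation_le_one_iff _).1 (main k)
  have : p * t ∈ O := by
    rw [S.tr]
    exact sum_mem fun k _ => mul_mem (hf _) (mul_mem (pow_mem (mG _) _) (mG _))
  have e := mul_mem hp' this
  rwa [inv_mul_cancel_left₀ hp0] at e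

end Pool.Agent.Lib.MP_56f651_co.RT
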